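import Pool.Agent.Lib.MP_c96c3a_co.Core

/-! Kernel evaluation of the search, chunk group 0. -/

namespace Pool.Agent.Lib.MP_c96c3a_co

set_option maxRecDepth 100000

theorem ch0 : run 0 17609382707216 = true := by decide +kernel
theorem ch1 : run 17609382707217 17609382707218 = true := by decide +kernel
theorem ch2 : run 17609382707219 17609382709264 = true := by decide +kernel
theorem ch3 : run 17609382709265 17609382709265 = true := by decide +kernel
theorem ch4 : run 17609382709266 17609382709271 = true := by decide +kernel
theorem ch5 : run 17609382709272 17609382709295 = true := by decide +kernel
theorem ch6 : run 17609382709296 17609382739991 = true := by decide +kernel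
theorem ch7 : run 17609382739992 17609382740063 = true := by decide +kernel
theorem ch8 : run 17609382740064 17609386903568 = true := by decide +kernel
theorem ch9 : run 17609386903569 17609386903572 = true := by decide +kernel
theorem ch10 : run 17609386903573 17609386905623 = true := by decide +kernel

end Pool.Agent.Lib.MP_c96c3a_co
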