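import Pool.Agent.Lib.MP_c96c3a_co.Ch0

/-! Kernel evaluation of the search, chunk group 1. -/

namespace Pool.Agent.Lib.MP_c96c3a_co

set_option maxRecDepth 100000

theorem ch11 : run 17609386905624 17609386909720 = true := by decide +kernel
theorem ch12 : run 17609386909721 17609386934311 = true := by decide +kernel
theorem ch13 : run 17609386934312 17609386999863 = true := by decide +kernel
theorem ch14 : run 17609386999864 17609416286247 = true := by decide +kernel
theorem ch15 : run 17609416286248 17609416343631 = true := by decide +kernel
theorem ch16 : run 17609416343632 17617976838160 = true := by decide +kernel
theorem ch17 : run 17617976838161 17617976838162 = true := by decide +kernel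
theorem ch18 : run 17617976838163 17617976838192 = true := by decide +kernel
theorem ch19 : run 17617976838193 17617976842260 = true := by decide +kernel

end Pool.Agent.Lib.MP_c96c3a_co
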