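import Pool.Agent.Lib.MP_c96c3a_co.Ch9

/-! Kernel evaluation of the search, chunk group 10. -/

namespace Pool.Agent.Lib.MP_c96c3a_co

set_option maxRecDepth 100000

theorem ch89 : run 108174412221564928 108174429326002264 = true := by decide +kernel
theorem ch90 : run 108174429326002265 108174429367896128 = true := by decide +kernel
theorem ch91 : run 108174429367896129 108174429367900196 = true := by decide +kernel
theorem ch92 : run 108174429367900197 108174429372125183 = true := by decide +kernel
theorem ch93 : run 108174429372125184 108174429376315391 = true := by decide +kernel
theorem ch94 : run 108174429376315392 108174437915875327 = true := by decide +kernel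
theorem ch95 : run 108174437915875328 108174437932636178 = true := by decide +kernel
theorem ch96 : run 108174437932636179 108174437962027073 = true := by decide +kernel

end Pool.Agent.Lib.MP_c96c3a_co
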