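import Pool.Agent.Lib.MP_c96c3a_co.Ch10

/-! Kernel evaluation of the search, chunk group 11. -/

namespace Pool.Agent.Lib.MP_c96c3a_co

set_option maxRecDepth 100000

theorem ch97 : run 108174437962027074 108174437966223382 = true := by decide +kernel
theorem ch98 : run 108174437966223383 108174437995565105 = true := by decide +kernel
theorem ch99 : run 108174437995565106 108174446522570788 = true := by decide +kernel
theorem ch100 : run 108174446522570789 108174446530959378 = true := by decide +kernel
theorem ch101 : run 108174446530959379 108174446556158018 = true := by decide +kernel
theorem ch102 : run 108174446556158019 108174446556174438 = true := by decide +kernel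
theorem ch103 : run 108174446556174439 108174446581336136 = true := by decide +kernel
theorem ch104 : run 108174446581336137 108174480899094566 = true := by decide +kernel
theorem ch105 : run 108174480899094567 151115727451828646838272 = true := by decide +kernel

end Pool.Agent.Lib.MP_c96c3a_co
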