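import Pool.Agent.Lib.MP_c96c3a_co.Ch1

/-! Kernel evaluation of the search, chunk group 2. -/

namespace Pool.Agent.Lib.MP_c96c3a_co

set_option maxRecDepth 100000

theorem ch20 : run 17617976842261 17617976868901 = true := by decide +kernel
theorem ch21 : run 17617976868902 17617981034513 = true := by decide +kernel
theorem ch22 : run 17617981034514 17617981065256 = true := by decide +kernel
theorem ch23 : run 17617981065257 17617985263714 = true := by decide +kernel
theorem ch24 : run 17617985263715 17618010400788 = true := by decide +kernel
theorem ch25 : run 17618010400789 17643750838289 = true := by decide +kernel
theorem ch26 : run 17643750838290 17643750867039 = true := by decide +kernel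
theorem ch27 : run 17643750867040 17643767631967 = true := by decide +kernel

end Pool.Agent.Lib.MP_c96c3a_co
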