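import Pool.Agent.Lib.MP_c96c3a_co.Ch2

/-! Kernel evaluation of the search, chunk group 3. -/

namespace Pool.Agent.Lib.MP_c96c3a_co

set_option maxRecDepth 100000

theorem ch28 : run 17643767631968 17643767697468 = true := by decide +kernel
theorem ch29 : run 17643767697469 17643826397263 = true := by decide +kernel
theorem ch30 : run 17643826397264 17652361771120 = true := by decide +kernel
theorem ch31 : run 17652361771121 52802348926992 = true := by decide +kernel
theorem ch32 : run 52802348926993 52802348926996 = true := by decide +kernel
theorem ch33 : run 52802348926997 52802348931090 = true := by decide +kernel
theorem ch34 : run 52802348931091 52802348959784 = true := by decide +kernel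
theorem ch35 : run 52802348959785 52802357323800 = true := by decide +kernel
theorem ch36 : run 52802357323801 52802390956031 = true := by decide +kernel

end Pool.Agent.Lib.MP_c96c3a_co
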