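import Pool.Agent.Lib.MP_c96c3a_co.Core

/-! Kernel evaluation of the search, chunk group 4. -/

namespace Pool.Agent.Lib.MP_c96c3a_co

set_option maxRecDepth 100000

theorem ch37 : run 52802390956032 52819545589794 = true := by decide +kernel
theorem ch38 : run 52819545589795 52819545593892 = true := by decide +kernel
theorem ch39 : run 52819545593893 52819549788185 = true := by decide +kernel
theorem ch40 : run 52819549788186 52819553994792 = true := by decide +kernel
theorem ch41 : run 52819553994793 52836717058066 = true := by decide +kernel
theorem ch42 : run 52836717058067 52836733859902 = true := by decide +kernel
theorem ch43 : run 52836733859903 52879691917348 = true := by decide +kernel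
theorem ch44 : run 52879691917349 52888315439172 = true := by decide +kernel
theorem ch45 : run 52888315439173 123239846180863 = true := by decide +kernel

end Pool.Agent.Lib.MP_c96c3a_co
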