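import Pool.Agent.Lib.MP_c96c3a_co.Ch4

/-! Kernel evaluation of the search, chunk group 5. -/

namespace Pool.Agent.Lib.MP_c96c3a_co

set_option maxRecDepth 100000

theorem ch46 : run 123239846180864 36064015784378400 = true := by decide +kernel
theorem ch47 : run 36064015784378401 36064015784380432 = true := by decide +kernel
theorem ch48 : run 36064015784380433 36064015784380449 = true := by decide +kernel
theorem ch49 : run 36064015784380450 36064015784380511 = true := by decide +kernel
theorem ch50 : run 36064015784380512 36064015788558354 = true := by decide +kernel
theorem ch51 : run 36064015788558355 36064015788574754 = true := by decide +kernel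
theorem ch52 : run 36064015788574755 36064015788576863 = true := by decide +kernel
theorem ch53 : run 36064015788576864 36064015796971616 = true := by decide +kernel
theorem ch54 : run 36064015796971617 36064024361715728 = true := by decide +kernel

end Pool.Agent.Lib.MP_c96c3a_co
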