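import Pool.Agent.Lib.MP_c96c3a_co.Ch5

/-! Kernel evaluation of the search, chunk group 6. -/

namespace Pool.Agent.Lib.MP_c96c3a_co

set_option maxRecDepth 100000

theorem ch55 : run 36064024361715729 36064024361715729 = true := by decide +kernel
theorem ch56 : run 36064024361715730 36064024361715760 = true := by decide +kernel
theorem ch57 : run 36064024361715761 36064024361723934 = true := by decide +kernel
theorem ch58 : run 36064024361723935 36064024370108434 = true := by decide +kernel
theorem ch59 : run 36064024370108435 36064024378509344 = true := by decide +kernel
theorem ch60 : run 36064024378509345 36064024378509346 = true := by decide +kernel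
theorem ch61 : run 36064024378509347 36064024378509408 = true := by decide +kernel
theorem ch62 : run 36064024378509409 36064024378517540 = true := by decide +kernel
theorem ch63 : run 36064024378517541 36064024382691346 = true := by decide +kernel

end Pool.Agent.Lib.MP_c96c3a_co
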