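import Pool.Agent.Lib.MP_c96c3a_co.Ch6

/-! Kernel evaluation of the search, chunk group 7. -/

namespace Pool.Agent.Lib.MP_c96c3a_co

set_option maxRecDepth 100000

theorem ch64 : run 36064024382691347 36064024386902112 = true := by decide +kernel
theorem ch65 : run 36064024386902113 36064024391155759 = true := by decide +kernel
theorem ch66 : run 36064024391155760 36064024441471055 = true := by decide +kernel
theorem ch67 : run 36064024441471056 36064041566836786 = true := by decide +kernel
theorem ch68 : run 36064041566836787 36064084520656895 = true := by decide +kernel
theorem ch69 : run 36064084520656896 36064084566843391 = true := by decide +kernel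
theorem ch70 : run 36064084566843392 36134401716801553 = true := by decide +kernel
theorem ch71 : run 36134401716801554 36134401716817933 = true := by decide +kernel

end Pool.Agent.Lib.MP_c96c3a_co
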