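import Pool.Agent.Lib.MP_c96c3a_co.Core

/-! Kernel evaluation of the search, chunk group 8. -/

namespace Pool.Agent.Lib.MP_c96c3a_co

set_option maxRecDepth 100000

theorem ch72 : run 36134401716817934 36134401716817959 = true := by decide +kernel
theorem ch73 : run 36134401716817960 36134401716883537 = true := by decide +kernel
theorem ch74 : run 36134401716883538 36134401783943213 = true := by decide +kernel
theorem ch75 : run 36134401783943214 36134410310948962 = true := by decide +kernel
theorem ch76 : run 36134410310948963 36134436064034897 = true := by decide +kernel
theorem ch77 : run 36134436064034898 36134436110143553 = true := by decide +kernel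
theorem ch78 : run 36134436110143554 36134436114298879 = true := by decide +kernel
theorem ch79 : run 36134436114298880 36134436126953569 = true := by decide +kernel

end Pool.Agent.Lib.MP_c96c3a_co
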