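import Pool.Agent.Lib.MP_c96c3a_co.Ch8

/-! Kernel evaluation of the search, chunk group 9. -/

namespace Pool.Agent.Lib.MP_c96c3a_co

set_option maxRecDepth 100000

theorem ch80 : run 36134436126953570 36134444704258086 = true := by decide +kernel
theorem ch81 : run 36134444704258087 36134470453080102 = true := by decide +kernel
theorem ch82 : run 36134470453080103 108174403556112438 = true := by decide +kernel
theorem ch83 : run 108174403556112439 108174403589683238 = true := by decide +kernel
theorem ch84 : run 108174403589683239 108174412146046998 = true := by decide +kernel
theorem ch85 : run 108174412146046999 108174412162816018 = true := by decide +kernel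
theorem ch86 : run 108174412162816019 108174412162832424 = true := by decide +kernel
theorem ch87 : run 108174412162832425 108174412175423510 = true := by decide +kernel
theorem ch88 : run 108174412175423511 108174412221564927 = true := by decide +kernel

end Pool.Agent.Lib.MP_c96c3a_co
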