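import Pool.Agent.Lib.MP_c96c3a_co.Sound
import Pool.Agent.Lib.MP_c96c3a_co.Ch0
import Pool.Agent.Lib.MP_c96c3a_co.Ch1
import Pool.Agent.Lib.MP_c96c3a_co.Ch2
import Pool.Agent.Lib.MP_c96c3a_co.Ch3
import Pool.Agent.Lib.MP_c96c3a_co.Ch4
import Pool.Agent.Lib.MP_c96c3a_co.Ch5
import Pool.Agent.Lib.MP_c96c3a_co.Ch6
import Pool.Agent.Lib.MP_c96c3a_co.Ch7
import Pool.Agent.Lib.MP_c96c3a_co.Ch8
import Pool.Agent.Lib.MP_c96c3a_co.Ch9
import Pool.Agent.Lib.MP_c96c3a_co.Ch10
import Pool.Agent.Lib.MP_c96c3a_co.Ch11

/-! Assembly of the chunks: no upper triangular sign matrix of order 11 has permanent `± 2029568`. -/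

namespace Pool.Agent.Lib.MP_c96c3a_co

theorem codeOf_lt (P : List (Finset Col)) : codeOf P < 2048 ^ P.length := by
  have h := codeOf_div [] P
  rw [List.nil_append] at h
  exact (Nat.div_eq_zero_iff_lt (by positivity)).1 h

theorem no_valid (C : List (Finset Col)) : ¬ Valid C := by
  intro hv
  obtain ⟨C, hC⟩ := exists_mini hv
  have h0 := not_in_range ch0 hC (Nat.zero_le _)
  have h1 := not_in_range ch1 hC h0
  have h2 := not_in_range ch2 hC h1
  have h3 := not_in_range ch3 hC h2
  have h4 := not_in_range ch4 hC h3
  have h5 := not_in_range ch5 hC h4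
  have h6 := not_in_range ch6 hC h5
  have h7 := not_in_range ch7 hC h6
  have h8 := not_in_range ch8 hC h7
  have h9 := not_in_range ch9 hC h8
  have h10 := not_in_range ch10 hC h9
  have h11 := not_in_range ch11 hC h10
  have h12 := not_in_range ch12 hC h11
  have h13 := not_in_range ch13 hC h12
  have h14 := not_in_range ch14 hC h13
  have h15 := not_in_range ch15 hC h14
  have h16 := not_in_range ch16 hC h15
  have h17 := not_in_range ch17 hC h16
  have h18 := not_in_range ch18 hC h17
  have h19 := not_in_range ch19 hC h18
  have h20 := not_in_range ch20 hC h19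
  have h21 := not_in_range ch21 hC h20
  have h22 := not_in_range ch22 hC h21
  have h23 := not_in_range ch23 hC h22
  have h24 := not_in_range ch24 hC h23
  have h25 := not_in_range ch25 hC h24
  have h26 := not_in_range ch26 hC h25
  have h27 := not_in_range ch27 hC h26
  have h28 := not_in_range ch28 hC h27
  have h29 := not_in_range ch29 hC h28
  have h30 := not_in_range ch30 hC h29
  have h31 := not_in_range ch31 hC h30
  have h32 := not_in_range ch32 hC h31
  have h33 := not_in_range ch33 hC h32
  have h34 := not_in_range ch34 hC h33
  have h35 := not_in_range ch35 hC h34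
  have h36 := not_in_range ch36 hC h35
  have h37 := not_in_range ch37 hC h36
  have h38 := not_in_range ch38 hC h37
  have h39 := not_in_range ch39 hC h38
  have h40 := not_in_range ch40 hC h39
  have h41 := not_in_range ch41 hC h40
  have h42 := not_in_range ch42 hC h41
  have h43 := not_in_range ch43 hC h42
  have h44 := not_in_range ch44 hC h43
  have h45 := not_in_range ch45 hC h44
  have h46 := not_in_range ch46 hC h45
  have h47 := not_in_range ch47 hC h46
  have h48 := not_in_range ch48 hC h47
  have h49 := not_in_range ch49 hC h48
  have h50 := not_in_range ch50 hC h49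
  have h51 := not_in_range ch51 hC h50
  have h52 := not_in_range ch52 hC h51
  have h53 := not_in_range ch53 hC h52
  have h54 := not_in_range ch54 hC h53
  have h55 := not_in_range ch55 hC h54
  have h56 := not_in_range ch56 hC h55
  have h57 := not_in_range ch57 hC h56
  have h58 := not_in_range ch58 hC h57
  have h59 := not_in_range ch59 hC h58
  have h60 := not_in_range ch60 hC h59
  have h61 := not_in_range ch61 hC h60
  have h62 := not_in_range ch62 hC h61
  have h63 := not_in_range ch63 hC h62
  have h64 := not_in_range ch64 hC h63
  have h65 := not_in_range ch65 hC h64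
  have h66 := not_in_range ch66 hC h65
  have h67 := not_in_range ch67 hC h66
  have h68 := not_in_range ch68 hC h67
  have h69 := not_in_range ch69 hC h68
  have h70 := not_in_range ch70 hC h69
  have h71 := not_in_range ch71 hC h70
  have h72 := not_in_range ch72 hC h71
  have h73 := not_in_range ch73 hC h72
  have h74 := not_in_range ch74 hC h73
  have h75 := not_in_range ch75 hC h74
  have h76 := not_in_range ch76 hC h75
  have h77 := not_in_range ch77 hC h76
  have h78 := not_in_range ch78 hC h77
  have h79 := not_in_range ch79 hC h78
  have h80 := not_in_range ch80 hC h79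
  have h81 := not_in_range ch81 hC h80
  have h82 := not_in_range ch82 hC h81
  have h83 := not_in_range ch83 hC h82
  have h84 := not_in_range ch84 hC h83
  have h85 := not_in_range ch85 hC h84
  have h86 := not_in_range ch86 hC h85
  have h87 := not_in_range ch87 hC h86
  have h88 := not_in_range ch88 hC h87
  have h89 := not_in_range ch89 hC h88
  have h90 := not_in_range ch90 hC h89
  have h91 := not_in_range ch91 hC h90
  have h92 := not_in_range ch92 hC h91
  have h93 := not_in_range ch93 hC h92
  have h94 := not_in_range ch94 hC h93
  have h95 := not_in_range ch95 hC h94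
  have h96 := not_in_range ch96 hC h95
  have h97 := not_in_range ch97 hC h96
  have h98 := not_in_range ch98 hC h97
  have h99 := not_in_range ch99 hC h98
  have h100 := not_in_range ch100 hC h99
  have h101 := not_in_range ch101 hC h100
  have h102 := not_in_range ch102 hC h101
  have h103 := not_in_range ch103 hC h102
  have h104 := not_in_range ch104 hC h103
  have h105 := not_in_range ch105 hC h104
  have h := codeOf_lt (C.take 7)
  have h' : 2048 ^ (C.take 7).length ≤ 2048 ^ 7 :=
    Nat.pow_le_pow_right (by norm_num) (List.length_take_le _ _)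
  omega

theorem permanent_ne (B : Matrix (Fin 11) (Fin 11) ℤ) (hB : ∀ i j, B i j = 1 ∨ B i j = -1)
    (hup : ∀ i j, B i j = -1 → i ≤ j) : B.permanent ≠ 2029568 := by
  intro h
  obtain ⟨C, hC⟩ := valid_of_matrix B hB hup (by rw [h]; rfl)
  exact no_valid C hC

end Pool.Agent.Lib.MP_c96c3a_co
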