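/-! Kernel-evaluated branch and bound for permanents of upper triangular sign matrices of order 11.
A vector indexed by the subsets of a fixed size of the 11 columns is packed into one natural
number, 27 bits per subset. -/

namespace Pool.Agent.Lib.MP_c96c3a_co

/-- slot position of a column -/
def ee (i : Nat) : Nat := [0, 1, 2, 4, 7, 13, 24, 44, 84, 161, 309].getD i 0

/-- elementary symmetric sums of the powers `2 ^ (27 * ee i)` over a list of columns -/
noncomputable def esym (L : List Nat) : Nat → Nat :=
  List.rec (motive := fun _ => Nat → Nat)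
    (fun m => Nat.rec (motive := fun _ => Nat) 1 (fun _ _ => 0) m)
    (fun i _ ih m => Nat.rec (motive := fun _ => Nat) 1
      (fun m' _ => Nat.add (ih (Nat.succ m')) (Nat.shiftLeft (ih m') (Nat.mul 27 (ee i)))) m) L

def cols : List Nat := [0, 1, 2, 3, 4, 5, 6, 7, 8, 9, 10]

/-- constants of one column -/
inductive CC where
  | nil : CC
  | cons (i sh msk c tm bit : Nat) (tl : CC) : CC

/-- data of one column at a node -/
inductive CL where
  | nil : CL
  | cons (flag : Bool) (A rest : Nat) (tw : Bool) (bit : Nat) (tl : CL) : CL

/-- insertion data -/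
inductive IL where
  | nil : IL
  | cons (u pw lim key : Nat) (tl : IL) : IL

/-- constants of one level -/
inductive LD where
  | nil : LD
  | cons (k onesOld cmOld hm ones cm hones thr : Nat) (free forced : CC) (tl : LD) : LD

noncomputable def mkCC (m : Nat) (L : List Nat) : CC :=
  List.rec (motive := fun _ => CC) CC.nil
    (fun i _ ih => CC.cons i (Nat.mul 27 (ee i))
      (Nat.mul 134217727 (Nat.shiftLeft (esym (cols.erase i) m) (Nat.mul 27 (ee i))))
      (Nat.mul 67108864 (esym (cols.erase i) m))
      (Nat.mul 134217727 (esym ((cols.erase i).erase (i - 1)) m))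
      (Nat.pow 2 i) ih) L

/-- `3 * 2 ^ 25` in each of 650 slots -/
def hmask : Nat := Nat.mul 100663296 (Nat.div (Nat.sub (Nat.pow 2 17550) 1) 134217727)

/-- pruning thresholds -/
def thrOf (k : Nat) : Nat := [0, 0, 0, 73, 2357, 16452, 84236, 338097, 1014729, 2029557].getD k 0

noncomputable def mkLD (ks : List Nat) : LD :=
  List.rec (motive := fun _ => LD) LD.nil
    (fun k _ ih => LD.cons k (esym cols (11 - k)) (Nat.mul 67108863 (esym cols (11 - k))) hmask
      (esym cols (10 - k)) (Nat.mul 67108863 (esym cols (10 - k))) (Nat.mul 67108864 (esym cols (10 - k)))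
      (thrOf k) (mkCC (10 - k) (cols.take (k + 1))) (mkCC (10 - k) (cols.drop (k + 1))) ih) ks

/-- number of one bits, for arguments below `2 ^ 11` -/
def pc (x : Nat) : Nat := Nat.mod (Nat.land (Nat.mul x 35185445863425) 76861433640456465) 15

noncomputable def CL.rest (l : CL) : Nat :=
  CL.rec (motive := fun _ => Nat) 0 (fun _ _ r _ _ _ _ => r) l

/-- column data of the free columns -/
noncomputable def mkCL (X A u : Nat) (cc : CC) : Nat → CL :=
  CC.rec (motive := fun _ => Nat → CL) (fun _ => CL.nil)
    (fun i sh msk c tm bit _ ih prevY =>
      (fun (Y : Nat) => (fun (tl : CL) (fl : Bool) =>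
        CL.cons fl
          (Bool.rec (motive := fun _ => Nat) (Nat.sub c Y) (Nat.sub Y c) fl)
          (Nat.add (Nat.mod (Nat.land A msk) 134217727) tl.rest)
          (Bool.rec (motive := fun _ => Bool)
            (Bool.rec (motive := fun _ => Bool) (Nat.beq (Nat.land prevY tm) (Nat.land Y tm)) false (Nat.beq i u))
            false (Nat.beq i 0))
          bit tl) (ih Y) (Nat.ble c Y)) (Nat.shiftRight (Nat.land X msk) sh)) cc

/-- start value: offset plus the slices of the forced columns -/
noncomputable def acc0 (X hones : Nat) (cc : CC) : Nat :=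
  CC.rec (motive := fun _ => Nat) hones
    (fun _ sh msk c _ _ _ ih => Nat.sub (Nat.add ih (Nat.shiftRight (Nat.land X msk) sh)) c) cc

/-- branch over the entries of the next row; first component: previous entry `+1`, second: `-1` -/
noncomputable def inrow (ones cm thr : Nat) (K : Nat → Nat → Bool) (cl : CL) :
    (Nat → Nat → Bool) × (Nat → Nat → Bool) :=
  CL.rec (motive := fun _ => (Nat → Nat → Bool) × (Nat → Nat → Bool))
    ((fun (f : Nat → Nat → Bool) => (f, f)) (fun acc mask => Bool.rec (motive := fun _ => Bool) true (K acc mask)
      (Nat.ble thr (Nat.mod (Nat.xor acc (Nat.add cm (Nat.land (Nat.shiftRight acc 26) ones))) 134217727))))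
    (fun flag A rest tw bit _ ih =>
      (fun (g0 g1 : Nat → Nat → Bool) (th : Nat) =>
        (fun (full : Nat → Nat → Bool) =>
          (Bool.rec (motive := fun _ => Nat → Nat → Bool) full
            (Bool.rec (motive := fun _ => Nat → Nat → Bool)
              (fun acc mask => g0 (Nat.sub acc A) mask) (fun acc mask => g0 (Nat.add acc A) mask) flag) tw,
           full))
        (Bool.rec (motive := fun _ => Nat → Nat → Bool)
          (fun acc mask => Bool.rec (motive := fun _ => Bool) true
            (Bool.rec (motive := fun _ => Bool) false (g1 (Nat.add acc A) (Nat.add mask bit)) (g0 (Nat.sub acc A) mask))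
            (Nat.ble th (Nat.mod (Nat.xor acc (Nat.add cm (Nat.land (Nat.shiftRight acc 26) ones))) 134217727)))
          (fun acc mask => Bool.rec (motive := fun _ => Bool) true
            (Bool.rec (motive := fun _ => Bool) false (g1 (Nat.sub acc A) (Nat.add mask bit)) (g0 (Nat.add acc A) mask))
            (Nat.ble th (Nat.mod (Nat.xor acc (Nat.add cm (Nat.land (Nat.shiftRight acc 26) ones))) 134217727)))
          flag))
      ih.1 ih.2 (Nat.sub thr rest)) cl

/-- the insertion rule: `true` when the row could be moved down with a smaller key -/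
noncomputable def insG (p : Nat → Nat) (mask szk : Nat) (il : IL) : Bool :=
  IL.rec (motive := fun _ => Bool) false
    (fun u pw lim key _ ih =>
      (fun (c : Nat) =>
        Bool.rec (motive := fun _ => Bool) false
          (Bool.rec (motive := fun _ => Bool) true ih
            (Nat.ble key (Nat.add szk (Nat.add (Nat.mod mask pw)
              (Nat.mul (Nat.sub (Nat.pow 2 c) 1) pw)))))
          (Nat.ble (Nat.add u c) lim)) (p (Nat.shiftRight mask u))) il

noncomputable def ins (mask szk : Nat) (il : IL) : Bool := insG pc mask szk il

/-- all slots are multiples of three -/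
noncomputable def div3 (A hm : Nat) : Bool :=
  Bool.rec (motive := fun _ => Bool) false (Nat.beq (Nat.land (Nat.div A 3) hm) 0) (Nat.beq (Nat.mod A 3) 0)

/-- packed vector of absolute values -/
def absv (X ones cm : Nat) : Nat :=
  (fun (Bb : Nat) => Nat.sub (Nat.add (Nat.xor X (Nat.add cm Bb)) ones) Bb)
    (Nat.land (Nat.shiftRight X 26) ones)

/-- no sublist has sum `D` -/
noncomputable def nosub (L : List Nat) : Nat → Bool :=
  List.rec (motive := fun _ => Nat → Bool)
    (fun D => Nat.ble 1 D)
    (fun a _ ih D => Bool.rec (motive := fun _ => Bool) false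
      (Bool.rec (motive := fun _ => Bool) true (ih (Nat.sub D a)) (Nat.ble a D)) (ih D)) L

noncomputable def dbl (A : Nat) (L : List Nat) : List Nat :=
  List.rec (motive := fun _ => List Nat) []
    (fun i _ ih => Nat.mul 2 (Nat.mod (Nat.shiftRight A (Nat.mul 27 (ee i))) 134217728) :: ih) L

/-- the check for the last row -/
noncomputable def final (A : Nat) : Bool :=
  (fun (L : Nat) => Bool.rec (motive := fun _ => Bool) true
    (nosub (dbl A cols) (Nat.sub L 2029568)) (Nat.ble 2029568 L)) (Nat.mod A 134217727)

noncomputable def search (sel : Nat → Nat → Bool) (o1 c1 : Nat) (ld : LD) : Nat → IL → Nat → Nat → Bool :=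
  LD.rec (motive := fun _ => Nat → IL → Nat → Nat → Bool)
    (fun X _ _ _ => final (absv X o1 c1))
    (fun k onesOld cmOld hm ones cm hones thr free forced _ ih X il u code =>
      (fun (A : Nat) =>
        Bool.rec (motive := fun _ => Bool)
          ((inrow ones cm thr
            (fun acc mask =>
              (fun (szk code' : Nat) =>
                Bool.rec (motive := fun _ => Bool)
                  (Bool.rec (motive := fun _ => Bool) true
                    (ih acc (IL.cons u (Nat.pow 2 u) (Nat.succ k) (Nat.add szk mask) il)
                      (Nat.add u (pc (Nat.shiftRight mask u))) code')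
                    (sel k code'))
                  true (ins mask szk il))
              (Nat.mul (pc mask) 2048) (Nat.add (Nat.mul code 2048) mask))
            (mkCL X A u free 0)).1 (acc0 X hones forced) 0)
          true (div3 A hm))
        (absv X onesOld cmOld)) ld

/-- the key of a row given as a bit mask -/
def keyN (x : Nat) : Nat := Nat.add (Nat.mul (pc x) 2048) x

/-- selection of the chunk of all matrices whose first seven rows have a code between `lo` and `hi`,
together with the rule on the third row -/
noncomputable def selc (lo hi : Nat) (k code : Nat) : Bool :=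
  Bool.rec (motive := fun _ => Bool)
    (Bool.rec (motive := fun _ => Bool) false
      (Bool.rec (motive := fun _ => Bool) false
        (Bool.rec (motive := fun _ => Bool) true
          (Nat.ble (keyN (Nat.mod code 2048)) (keyN (Nat.xor (Nat.mod code 2048) (Nat.div code 2048))))
          (Nat.beq k 2))
        (Nat.ble code (Nat.div hi (Nat.pow 2048 (Nat.sub 6 k)))))
      (Nat.ble (Nat.div lo (Nat.pow 2048 (Nat.sub 6 k))) code))
    true (Nat.ble 7 k)

noncomputable def run (lo hi : Nat) : Bool :=
  search (selc lo hi) (esym cols 1) (Nat.mul 67108863 (esym cols 1))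
    (mkLD [1, 2, 3, 4, 5, 6, 7, 8, 9]) (Nat.mul 67108865 (esym cols 10)) IL.nil 0 0

end Pool.Agent.Lib.MP_c96c3a_co
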