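import Mathlib

/-! Subpermanents of sign matrices with 11 columns. A row is recorded by the set of columns in
which it has the entry `-1`. -/

namespace Pool.Agent.Lib.MP_c96c3a_co

open Finset

abbrev Col := Fin 11

/-- the entry of the row `R` in column `i` -/
def sg (R : Finset Col) (i : Col) : ℤ := if i ∈ R then -1 else 1

/-- the permanent of the rows `L` restricted to the columns outside `T` -/
def G : List (Finset Col) → Finset Col → ℤ
  | [], T => if T = univ then 1 else 0
  | R :: L, T => ∑ i ∈ Tᶜ, sg R i * G L (insert i T)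

theorem abs_sg (R : Finset Col) (i : Col) : |sg R i| = 1 := by
  unfold sg; split_ifs <;> simp

theorem G_swap (a b : Finset Col) (L : List (Finset Col)) (T : Finset Col) :
    G (a :: b :: L) T = G (b :: a :: L) T := by
  simp only [G, Finset.mul_sum]
  rw [Finset.sum_comm' (s' := fun j => (insert j T)ᶜ) (t' := Tᶜ)]
  · refine Finset.sum_congr rfl fun j _ => Finset.sum_congr rfl fun i _ => ?_
    rw [Finset.insert_comm]; ring
  · intro x y
    simp only [mem_compl, mem_insert, not_or]
    constructor
    · rintro ⟨h1, h2, h3⟩; exact ⟨⟨fun e => h2 e.symm, h1⟩, h3⟩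
    · rintro ⟨⟨h1, h2⟩, h3⟩; exact ⟨h2, fun e => h1 e.symm, h3⟩

theorem G_perm {L L' : List (Finset Col)} (h : L.Perm L') : G L = G L' := by
  induction h with
  | nil => rfl
  | cons a _ ih => funext T; simp only [G, ih]
  | swap a b L => funext T; exact G_swap _ _ _ _
  | trans _ _ ih1 ih2 => exact ih1.trans ih2

theorem sg_map (π : Equiv.Perm Col) (R : Finset Col) (i : Col) :
    sg (R.map π.toEmbedding) (π i) = sg R i := by
  simp [sg]

theorem sum_compl_map (π : Equiv.Perm Col) (T : Finset Col) (F : Col → ℤ) :
    ∑ i ∈ (T.map π.toEmbedding)ᶜ, F i = ∑ i ∈ Tᶜ, F (π i) := by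
  symm
  apply Finset.sum_equiv π
  · intro i; simp
  · intro i _; rfl

theorem G_map_append (π : Equiv.Perm Col) (P P' : List (Finset Col)) (m : ℕ)
    (h : ∀ T : Finset Col, T.card = m → G P' (T.map π.toEmbedding) = G P T) :
    ∀ (Q : List (Finset Col)) (T : Finset Col), T.card + Q.length = m →
      G (Q.map (fun R => R.map π.toEmbedding) ++ P') (T.map π.toEmbedding) = G (Q ++ P) T := by
  intro Q
  induction Q with
  | nil => intro T hT; exact h T (by simpa using hT)
  | cons R Q ih =>
    intro T hT
    simp only [List.map_cons, List.cons_append, G]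
    rw [sum_compl_map]
    refine Finset.sum_congr rfl fun i hi => ?_
    have hi' : i ∉ T := by simpa using hi
    rw [sg_map, ← ih (insert i T) (by rw [card_insert_of_notMem hi']; simp at hT ⊢; omega),
      Finset.map_insert]
    rfl

theorem G_map (π : Equiv.Perm Col) (L : List (Finset Col)) :
    ∀ T : Finset Col, G (L.map (fun R => R.map π.toEmbedding)) (T.map π.toEmbedding) = G L T := by
  intro T
  have := G_map_append π [] [] (T.card + L.length) (fun T _ => by
    simp only [G]
    congr 1
    apply propext
    constructor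
    · intro e
      apply Finset.map_injective π.toEmbedding
      rw [e]; simp
    · rintro rfl; simp) L T rfl
  simpa using this

theorem sg_symmDiff (R N : Finset Col) (i : Col) : sg (symmDiff R N) i = sg R i * sg N i := by
  unfold sg
  by_cases h1 : i ∈ R <;> by_cases h2 : i ∈ N <;> simp [Finset.mem_symmDiff, h1, h2]

theorem G_symmDiff (N : Finset Col) (L : List (Finset Col)) :
    ∀ T : Finset Col, G (L.map (fun R => symmDiff R N)) T = (∏ i ∈ Tᶜ, sg N i) * G L T := by
  induction L with
  | nil =>
    intro T
    simp only [List.map_nil, G]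
    split_ifs with h
    · subst h; simp
    · simp
  | cons R L ih =>
    intro T
    simp only [List.map_cons, G, Finset.mul_sum]
    refine Finset.sum_congr rfl fun i hi => ?_
    rw [ih, sg_symmDiff, Finset.compl_insert, ← Finset.mul_prod_erase _ _ hi]
    ring

theorem abs_G_symmDiff (N : Finset Col) (L : List (Finset Col)) :
    |G (L.map (fun R => symmDiff R N)) ∅| = |G L ∅| := by
  rw [G_symmDiff, abs_mul, Finset.abs_prod]
  simp [abs_sg]

/-- the subsets of size `m` -/
abbrev lev (m : ℕ) : Finset (Finset Col) := powersetCard m univ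

theorem mem_lev {m : ℕ} {T : Finset Col} : T ∈ lev m ↔ T.card = m := by simp [lev]

theorem sum_insert_lev {M : Type*} [AddCommMonoid M] (m : ℕ) (i : Col) (F : Finset Col → M) :
    ∑ T ∈ lev m, (if i ∈ T then 0 else F (insert i T)) =
      ∑ T ∈ lev (m + 1), if i ∈ T then F T else 0 := by
  rw [← Finset.sum_filter]
  have : ∑ T ∈ lev m, (if i ∈ T then 0 else F (insert i T)) =
      ∑ T ∈ (lev m).filter (fun T => i ∉ T), F (insert i T) := by
    rw [Finset.sum_filter]
    refine Finset.sum_congr rfl fun T _ => ?_
    by_cases h : i ∈ T <;> simp [h]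
  rw [this]
  refine Finset.sum_bij' (fun T _ => insert i T) (fun T _ => T.erase i) ?_ ?_ ?_ ?_ ?_
  · intro T hT
    simp only [mem_filter, mem_lev] at hT ⊢
    exact ⟨by rw [card_insert_of_notMem hT.2, hT.1], mem_insert_self _ _⟩
  · intro T hT
    simp only [mem_filter, mem_lev] at hT ⊢
    exact ⟨by rw [card_erase_of_mem hT.2, hT.1]; rfl, notMem_erase _ _⟩
  · intro T hT
    simp only [mem_filter] at hT
    exact erase_insert hT.2
  · intro T hT
    simp only [mem_filter] at hT
    exact insert_erase hT.2
  · intro T _; rfl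

/-- sum of the absolute values on level `m` -/
def L1 (m : ℕ) (f : Finset Col → ℤ) : ℤ := ∑ T ∈ lev m, |f T|

theorem L1_nonneg (m : ℕ) (f : Finset Col → ℤ) : 0 ≤ L1 m f :=
  Finset.sum_nonneg fun _ _ => abs_nonneg _

/-- slice of `f` in direction `i` -/
def sl (f : Finset Col → ℤ) (i : Col) (T : Finset Col) : ℤ := if i ∈ T then 0 else f (insert i T)

theorem L1_sl (m : ℕ) (f : Finset Col → ℤ) (i : Col) :
    L1 m (sl f i) = ∑ T ∈ lev (m + 1), if i ∈ T then |f T| else 0 := by
  rw [← sum_insert_lev m i (fun T => |f T|)]
  refine Finset.sum_congr rfl fun T _ => ?_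
  unfold sl; split_ifs <;> simp

theorem sum_L1_sl (m : ℕ) (f : Finset Col → ℤ) :
    ∑ i, L1 m (sl f i) = (m + 1) * L1 (m + 1) f := by
  simp only [L1_sl]
  rw [Finset.sum_comm, L1, Finset.mul_sum]
  refine Finset.sum_congr rfl fun T hT => ?_
  rw [← Finset.sum_filter, Finset.sum_const]
  simp [mem_lev.1 hT]

theorem G_cons_eq (R : Finset Col) (L : List (Finset Col)) (T : Finset Col) :
    G (R :: L) T = ∑ i, sg R i * sl (G L) i T := by
  rw [G, ← Finset.sum_filter_add_sum_filter_not univ (fun i => i ∈ T)]
  rw [Finset.sum_eq_zero (s := univ.filter (fun i => i ∈ T)) (fun i hi => by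
    simp only [mem_filter] at hi; simp [sl, hi.2]), zero_add]
  apply Finset.sum_congr
  · ext i; simp
  · intro i hi
    simp only [mem_filter] at hi; simp [sl, hi.2]

theorem L1_sum_le (m : ℕ) (R : Finset Col) (f : Finset Col → ℤ) (S : Finset Col) :
    L1 m (fun T => ∑ i ∈ S, sg R i * sl f i T) ≤ ∑ i ∈ S, L1 m (sl f i) := by
  unfold L1
  rw [Finset.sum_comm]
  refine Finset.sum_le_sum fun T _ => (Finset.abs_sum_le_sum_abs _ _).trans (le_of_eq ?_)
  refine Finset.sum_congr rfl fun i _ => ?_
  rw [abs_mul, abs_sg, one_mul]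

theorem L1_cons (m : ℕ) (R : Finset Col) (L : List (Finset Col)) :
    L1 m (G (R :: L)) ≤ (m + 1) * L1 (m + 1) (G L) := by
  rw [← sum_L1_sl]
  have : G (R :: L) = fun T => ∑ i, sg R i * sl (G L) i T := funext (G_cons_eq R L)
  rw [this]
  exact L1_sum_le m R (G L) univ

theorem L1_append (P : List (Finset Col)) : ∀ (Q : List (Finset Col)) (m : ℕ),
    (m.factorial : ℤ) * L1 m (G (Q ++ P)) ≤
      ((m + Q.length).factorial : ℤ) * L1 (m + Q.length) (G P) := by
  intro Q
  induction Q with
  | nil => intro m; simp
  | cons R Q ih =>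
    intro m
    have h1 := L1_cons m R (Q ++ P)
    have h2 := ih (m + 1)
    rw [List.length_cons, show m + (Q.length + 1) = m + 1 + Q.length by ring]
    refine le_trans ?_ h2
    rw [Nat.factorial_succ, List.cons_append]
    push_cast
    have : (0 : ℤ) ≤ m.factorial := by positivity
    nlinarith

theorem abs_G_le (P Q : List (Finset Col)) :
    |G (Q ++ P) ∅| ≤ (Q.length.factorial : ℤ) * L1 Q.length (G P) := by
  have := L1_append P Q 0
  simpa [L1] using this

theorem L1_apriori (P : List (Finset Col)) (m : ℕ) (h : m + P.length = 11) :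
    (m.factorial : ℤ) * L1 m (G P) ≤ 39916800 := by
  have := L1_append [] P m
  rw [List.append_nil, h] at this
  refine this.trans (le_of_eq ?_)
  have e : lev 11 = {univ} := by
    have := Finset.powersetCard_self (univ : Finset Col)
    simpa using this
  simp [L1, e, G, Nat.factorial]

theorem three_dvd_append (P : List (Finset Col)) (m : ℕ)
    (h : ∀ T : Finset Col, T.card = m → (3 : ℤ) ∣ G P T) :
    ∀ (Q : List (Finset Col)) (T : Finset Col), T.card + Q.length = m → (3 : ℤ) ∣ G (Q ++ P) T := by
  intro Q
  induction Q with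
  | nil => intro T hT; exact h T (by simpa using hT)
  | cons R Q ih =>
    intro T hT
    simp only [List.cons_append, G]
    refine Finset.dvd_sum fun i hi => Dvd.dvd.mul_left ?_ _
    have hi' : i ∉ T := by simpa using hi
    exact ih _ (by rw [card_insert_of_notMem hi']; simp at hT ⊢; omega)

theorem G_ofFn : ∀ (k : ℕ) (f : Fin k → Finset Col) (T : Finset Col),
    G (List.ofFn f) T = ∑ g : Fin k → Col,
      if Function.Injective g ∧ univ.image g = Tᶜ then ∏ i, sg (f i) (g i) else 0 := by
  intro k
  induction k with
  | zero =>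
    intro f T
    simp only [List.ofFn_zero, G, univ_unique, sum_singleton, univ_eq_empty, image_empty, prod_empty]
    congr 1
    apply propext
    constructor
    · rintro rfl; exact ⟨Function.injective_of_subsingleton _, by simp⟩
    · rintro ⟨_, h⟩; exact (Finset.compl_eq_empty_iff T).1 h.symm
  | succ k ih =>
    intro f T
    rw [List.ofFn_succ, G, ← (Fin.consEquiv (fun _ => Col)).sum_comp, Fintype.sum_prod_type,
      ← Finset.sum_filter_add_sum_filter_not univ (fun i => i ∈ T)]
    have himg : ∀ (i : Col) (g : Fin k → Col),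
        univ.image (Fin.consEquiv (fun _ => Col) (i, g)) = insert i (univ.image g) := by
      intro i g
      ext x
      simp [Fin.exists_fin_succ, Fin.consEquiv, eq_comm]
    have hinj : ∀ (i : Col) (g : Fin k → Col),
        Function.Injective (Fin.consEquiv (fun _ => Col) (i, g)) ↔
          i ∉ univ.image g ∧ Function.Injective g := by
      intro i g
      have := @Fin.cons_injective_iff k Col i g
      simpa [Fin.consEquiv] using this
    rw [Finset.sum_eq_zero (s := univ.filter (fun i => i ∈ T)) (fun i hi => by
      simp only [mem_filter] at hi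
      refine Finset.sum_eq_zero fun g _ => if_neg ?_
      rintro ⟨_, h⟩
      rw [himg] at h
      have : i ∈ Tᶜ := h ▸ mem_insert_self _ _
      exact (mem_compl.1 this) hi.2), zero_add]
    apply Finset.sum_congr
    · ext i; simp
    · intro i hi
      simp only [mem_filter] at hi
      rw [ih, Finset.mul_sum]
      refine Finset.sum_congr rfl fun g _ => ?_
      rw [Fin.prod_univ_succ]
      have hiff : (Function.Injective g ∧ univ.image g = (insert i T)ᶜ) ↔
          (Function.Injective (Fin.consEquiv (fun _ => Col) (i, g)) ∧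
            univ.image (Fin.consEquiv (fun _ => Col) (i, g)) = Tᶜ) := by
        rw [himg, hinj]
        constructor
        · rintro ⟨h1, h2⟩
          refine ⟨⟨by rw [h2]; simp, h1⟩, ?_⟩
          rw [h2, Finset.compl_insert, insert_erase (mem_compl.2 hi.2)]
        · rintro ⟨⟨h0, h1⟩, h2⟩
          refine ⟨h1, ?_⟩
          rw [Finset.compl_insert, ← h2, erase_insert h0]
      by_cases hc : Function.Injective g ∧ univ.image g = (insert i T)ᶜ
      · rw [if_pos hc, if_pos (hiff.1 hc)]; simp [Fin.consEquiv]
      · rw [if_neg hc, if_neg (fun h => hc (hiff.2 h)), mul_zero]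

theorem permanent_eq_G (f : Col → Finset Col) :
    (Matrix.of fun i j => sg (f i) j).permanent = G (List.ofFn f) ∅ := by
  rw [G_ofFn, ← Matrix.permanent_transpose, Matrix.permanent, ← Finset.sum_filter]
  apply Finset.sum_bij (fun (σ : Equiv.Perm Col) _ => (σ : Col → Col))
  · intro σ _
    simp only [mem_filter, mem_univ, true_and, compl_empty]
    exact ⟨σ.injective, Finset.image_univ_equiv σ⟩
  · intro σ _ τ _ h; exact Equiv.ext (congrFun h)
  · intro g hg
    simp only [mem_filter, mem_univ, true_and] at hg
    exact ⟨Equiv.ofBijective g (Finite.injective_iff_bijective.1 hg.1), mem_univ _, rfl⟩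
  · intro σ _; simp

end Pool.Agent.Lib.MP_c96c3a_co
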