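import Mathlib
import Pool.Agent.Lib.MP_c96c3a_co.Core
import Pool.Agent.Lib.MP_c96c3a_co.Sub

/-! Rows as bit masks. -/

namespace Pool.Agent.Lib.MP_c96c3a_co

open Finset

/-- the bit mask of a set of columns -/
def val (R : Finset Col) : ℕ := ∑ i ∈ R, 2 ^ (i : ℕ)

/-- the first `u` columns -/
def seg (u : ℕ) : Finset Col := univ.filter fun i => (i : ℕ) < u

theorem testBit_val_iff (R : Finset Col) (j : ℕ) :
    (val R).testBit j = true ↔ ∃ h : j < 11, (⟨j, h⟩ : Col) ∈ R := by
  have h1 : val R = ∑ i ∈ R.map Fin.valEmbedding, 2 ^ i := by rw [Finset.sum_map]; rfl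
  rw [← Nat.mem_bitIndices, ← List.mem_toFinset, h1, Finset.toFinset_bitIndices_sum_two_pow]
  simp only [mem_map, Fin.valEmbedding_apply]
  constructor
  · rintro ⟨a, ha, rfl⟩; exact ⟨a.2, ha⟩
  · rintro ⟨h, ha⟩; exact ⟨_, ha, rfl⟩

theorem testBit_val (R : Finset Col) (i : Col) : (val R).testBit i = decide (i ∈ R) := by
  rw [Bool.eq_iff_iff, testBit_val_iff]; simp

theorem val_lt (R : Finset Col) : val R < 2048 := by
  apply Nat.lt_pow_two_of_testBit (n := 11)
  intro i hi
  rw [← Bool.not_eq_true, testBit_val_iff]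
  rintro ⟨h, _⟩; omega

theorem pc_facts : ∀ m : Fin 2048, pc m.1 = ∑ i : Col, (m.1.testBit i.1).toNat := by
  decide +kernel

theorem pc_eq {m : ℕ} (hm : m < 2048) :
    pc m = (univ.filter fun i : Col => m.testBit i.1 = true).card := by
  rw [pc_facts ⟨m, hm⟩, Finset.card_filter]
  refine Finset.sum_congr rfl fun i _ => ?_
  cases m.testBit i.1 <;> simp

theorem pc_val (R : Finset Col) : pc (val R) = R.card := by
  rw [pc_eq (val_lt R)]
  congr 1
  ext i
  simp [testBit_val]

theorem pc_shift (R : Finset Col) (u : ℕ) : pc (val R >>> u) = (R \ seg u).card := by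
  rw [pc_eq (lt_of_le_of_lt (Nat.shiftRight_le _ _) (val_lt R))]
  have key : ∀ i ∈ (univ.filter fun i : Col => (val R >>> u).testBit i.1 = true),
      ∃ h : u + i.1 < 11, (⟨u + i.1, h⟩ : Col) ∈ R := by
    intro i hi
    simp only [mem_filter, mem_univ, true_and, Nat.testBit_shiftRight] at hi
    exact (testBit_val_iff _ _).1 hi
  refine Finset.card_bij (fun i hi => ⟨u + i.1, (key i hi).1⟩) ?_ ?_ ?_
  · intro i hi
    simp only [mem_sdiff, seg, mem_filter, mem_univ, true_and]
    exact ⟨(key i hi).2, by omega⟩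
  · intro i hi j hj e
    have := congrArg Fin.val e
    simp only at this
    exact Fin.ext (by omega)
  · intro j hj
    simp only [mem_sdiff, seg, mem_filter, mem_univ, true_and] at hj
    refine ⟨⟨j - u, by omega⟩, ?_, Fin.ext (by simp; omega)⟩
    simp only [mem_filter, mem_univ, true_and, Nat.testBit_shiftRight]
    rw [show u + (j.1 - u) = j.1 by omega, testBit_val]
    simp [hj.1]

theorem val_symmDiff (R N : Finset Col) : val (symmDiff R N) = val R ^^^ val N := by
  apply Nat.eq_of_testBit_eq
  intro j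
  rw [Nat.testBit_xor]
  by_cases h : j < 11
  · have h1 := testBit_val R ⟨j, h⟩
    have h2 := testBit_val N ⟨j, h⟩
    have h3 := testBit_val (symmDiff R N) ⟨j, h⟩
    simp only at h1 h2 h3
    rw [h1, h2, h3]
    by_cases a : (⟨j, h⟩ : Col) ∈ R <;> by_cases b : (⟨j, h⟩ : Col) ∈ N <;>
      simp [Finset.mem_symmDiff, a, b]
  · have k : ∀ S : Finset Col, (val S).testBit j = false := fun S => by
      rw [← Bool.not_eq_true, testBit_val_iff]; rintro ⟨h', _⟩; exact h h'
    simp [k]

theorem val_inter_seg (R : Finset Col) (u : ℕ) : val (R ∩ seg u) = val R % 2 ^ u := by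
  apply Nat.eq_of_testBit_eq
  intro j
  rw [Nat.testBit_mod_two_pow, Bool.eq_iff_iff, Bool.and_eq_true, testBit_val_iff, testBit_val_iff]
  simp only [mem_inter, seg, mem_filter, mem_univ, true_and, decide_eq_true_eq]
  constructor
  · rintro ⟨h, h1, h2⟩; exact ⟨h2, h, h1⟩
  · rintro ⟨h2, h, h1⟩; exact ⟨h, h1, h2⟩

theorem seg_facts : ∀ u c : Fin 12, u.1 + c.1 ≤ 11 →
    val (seg (u.1 + c.1) \ seg u.1) = (2 ^ c.1 - 1) * 2 ^ u.1 ∧
      (seg (u.1 + c.1) \ seg u.1).card = c.1 ∧ (seg u.1).card = u.1 := by
  decide +kernel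

theorem card_seg {u : ℕ} (hu : u ≤ 11) : (seg u).card = u :=
  (seg_facts ⟨u, by omega⟩ ⟨0, by omega⟩ (by simpa using hu)).2.2

theorem eq_seg_of_lower (S : Finset Col)
    (h : ∀ i j : Col, (j : ℕ) = i + 1 → j ∈ S → i ∈ S) : S = seg S.card := by
  have hl : ∀ (d : ℕ) (i j : Col), (j : ℕ) = i + d → j ∈ S → i ∈ S := by
    intro d
    induction d with
    | zero => intro i j e hj; rwa [show i = j from Fin.ext (by omega)]
    | succ d ih =>
      intro i j e hj
      exact h i ⟨i + 1, by omega⟩ rfl (ih ⟨i + 1, by omega⟩ j (by simp; omega) hj)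
  ext i
  simp only [seg, mem_filter, mem_univ, true_and]
  constructor
  · intro hi
    have : seg (i + 1) ⊆ S := by
      intro x hx
      simp only [seg, mem_filter, mem_univ, true_and] at hx
      exact hl (i - x) x i (by omega) hi
    have h2 := card_le_card this
    rw [card_seg (by omega)] at h2
    omega
  · intro hi
    by_contra hn
    have : S ⊆ seg i := by
      intro x hx
      simp only [seg, mem_filter, mem_univ, true_and]
      by_contra hc
      exact hn (hl (x - i) i x (by omega) hx)
    have h2 := card_le_card this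
    rw [card_seg (by omega)] at h2
    omega

/-- a permutation fixing the first `u` columns that moves the rest of `R` to the next columns -/
theorem exists_relabel (R : Finset Col) {u : ℕ} (hu : u ≤ 11) :
    ∃ π : Equiv.Perm Col, (∀ i ∈ seg u, π i = i) ∧
      val (R.map π.toEmbedding) = val R % 2 ^ u + (2 ^ (R \ seg u).card - 1) * 2 ^ u := by
  set c := (R \ seg u).card with hc
  have hcu : u + c ≤ 11 := by
    have h1 : (seg u ∪ (R \ seg u)).card ≤ 11 := by simpa using card_le_univ (seg u ∪ (R \ seg u))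
    rw [card_union_of_disjoint disjoint_sdiff, card_seg hu] at h1
    exact h1
  obtain ⟨hv, hcard, -⟩ := seg_facts ⟨u, by omega⟩ ⟨c, by omega⟩ hcu
  simp only at hv hcard
  set B := seg (u + c) \ seg u with hB
  have e : (R \ seg u : Finset Col) ≃ (B : Finset Col) := Finset.equivOfCardEq (by rw [hcard])
  let g : (seg u ∪ R : Finset Col) → Col := fun x =>
    if h : x.1 ∈ seg u then x.1 else (e ⟨x.1, by
      have := x.2; simp only [mem_union, mem_sdiff] at this ⊢; tauto⟩).1
  have hg : Function.Injective g := by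
    intro x y hxy
    simp only [g] at hxy
    split_ifs at hxy with h1 h2 h2
    · exact Subtype.ext hxy
    · exact absurd (hxy ▸ h1) (mem_sdiff.1 (e _).2).2
    · exact absurd (hxy ▸ h2) (mem_sdiff.1 (e _).2).2
    · have := e.injective (Subtype.ext hxy)
      exact Subtype.ext (Subtype.mk.inj this)
  obtain ⟨π, hπ⟩ := Equiv.Perm.exists_extending_pair (fun x : (seg u ∪ R : Finset Col) => x.1) g
    Subtype.val_injective hg
  have hfix : ∀ i ∈ seg u, π i = i := by
    intro i hi
    have := hπ ⟨i, mem_union_left _ hi⟩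
    simpa [g, hi] using this
  refine ⟨π, hfix, ?_⟩
  have hmap : R.map π.toEmbedding = (R ∩ seg u) ∪ B := by
    apply Finset.eq_of_subset_of_card_le
    · intro y hy
      obtain ⟨x, hx, rfl⟩ := mem_map.1 hy
      by_cases h : x ∈ seg u
      · have : π x = x := hfix x h
        simp [this, hx, h]
      · have := hπ ⟨x, mem_union_right _ hx⟩
        simp only [g, h, dite_false] at this
        refine mem_union_right _ ?_
        change π x ∈ B
        rw [this]; exact (e _).2
    · rw [card_map]
      refine (card_union_le _ _).trans (le_of_eq ?_)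
      rw [hcard, hc, card_inter_add_card_sdiff]
  rw [hmap, val, Finset.sum_union, ← val, ← val, val_inter_seg, hv]
  exact Finset.disjoint_left.2 fun x hx hx' => (mem_sdiff.1 hx').2 (mem_inter.1 hx).2

end Pool.Agent.Lib.MP_c96c3a_co
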