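import Mathlib

/-! Packing a family of numbers below `2 ^ 27` into one natural number. -/

namespace Pool.Agent.Lib.MP_c96c3a_co

open Finset

variable {α : Type*}

/-- the packed number -/
def pk (s : Finset α) (pos : α → ℕ) (h : α → ℕ) : ℕ := ∑ T ∈ s, h T * 2 ^ (27 * pos T)

theorem pk_congr {s : Finset α} {pos : α → ℕ} {h h' : α → ℕ} (e : ∀ T ∈ s, h T = h' T) :
    pk s pos h = pk s pos h' :=
  Finset.sum_congr rfl fun T hT => by rw [e T hT]

theorem pk_add (s : Finset α) (pos : α → ℕ) (h h' : α → ℕ) :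
    pk s pos h + pk s pos h' = pk s pos (fun T => h T + h' T) := by
  simp only [pk, add_mul, Finset.sum_add_distrib]

theorem pk_mul (s : Finset α) (pos : α → ℕ) (h : α → ℕ) (c : ℕ) :
    c * pk s pos h = pk s pos (fun T => c * h T) := by
  simp only [pk, Finset.mul_sum, mul_assoc]

theorem pk_cast (s : Finset α) (pos : α → ℕ) (h : α → ℕ) :
    (pk s pos h : ℤ) = ∑ T ∈ s, (h T : ℤ) * 2 ^ (27 * pos T) := by
  simp [pk]

theorem pk_aux [DecidableEq α] (pos : α → ℕ) (h : α → ℕ) (s : Finset α) :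
    Set.InjOn pos s → (∀ T ∈ s, h T < 2 ^ 27) →
    (∀ N, (∀ T ∈ s, pos T < N) → pk s pos h < 2 ^ (27 * N)) ∧
    ∀ j, ((pk s pos h).testBit j = true ↔
      ∃ T ∈ s, pos T = j / 27 ∧ (h T).testBit (j % 27) = true) := by
  induction s using Finset.induction_on_max_value pos with
  | empty => intro _ _; simp [pk]
  | insert a s ha hmax ih =>
    intro hinj hb
    have hinj' : Set.InjOn pos s := hinj.mono (by simp)
    have hb' : ∀ T ∈ s, h T < 2 ^ 27 := fun T hT => hb T (mem_insert_of_mem hT)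
    obtain ⟨ih1, ih2⟩ := ih hinj' hb'
    have hlt : ∀ T ∈ s, pos T < pos a := by
      intro T hT
      refine lt_of_le_of_ne (hmax T hT) fun e => ha ?_
      have := hinj (by simp [hT] : T ∈ ((insert a s : Finset α) : Set α)) (by simp) e
      rwa [← this]
    have hs := ih1 _ hlt
    have hsum : pk (insert a s) pos h = 2 ^ (27 * pos a) * h a + pk s pos h := by
      rw [pk, Finset.sum_insert ha, mul_comm]; rfl
    have hha := hb a (mem_insert_self _ _)
    constructor
    · intro N hN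
      have h1 : pos a + 1 ≤ N := hN a (mem_insert_self _ _)
      calc pk (insert a s) pos h < 2 ^ (27 * pos a) * (h a + 1) := by rw [hsum, mul_add, mul_one]; omega
        _ ≤ 2 ^ (27 * pos a) * 2 ^ 27 := Nat.mul_le_mul_left _ hha
        _ = 2 ^ (27 * (pos a + 1)) := by rw [← pow_add]; ring_nf
        _ ≤ 2 ^ (27 * N) := Nat.pow_le_pow_right (by norm_num) (by omega)
    · intro j
      rw [hsum, Nat.testBit_two_pow_mul_add _ hs]
      split_ifs with hj
      · rw [ih2]
        constructor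
        · rintro ⟨T, hT, e⟩; exact ⟨T, mem_insert_of_mem hT, e⟩
        · rintro ⟨T, hT, e1, e2⟩
          rcases mem_insert.1 hT with rfl | hT
          · omega
          · exact ⟨T, hT, e1, e2⟩
      · constructor
        · intro ht
          have h27 : j - 27 * pos a < 27 := by
            by_contra hc
            have : h a < 2 ^ (j - 27 * pos a) :=
              lt_of_lt_of_le hha (Nat.pow_le_pow_right (by norm_num) (by omega))
            rw [Nat.testBit_lt_two_pow this] at ht
            exact absurd ht (by simp)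
          refine ⟨a, mem_insert_self _ _, by omega, ?_⟩
          rwa [show j % 27 = j - 27 * pos a by omega]
        · rintro ⟨T, hT, e1, e2⟩
          rcases mem_insert.1 hT with rfl | hT
          · rwa [show j - 27 * pos T = j % 27 by omega]
          · have := hlt T hT; omega

section
variable [DecidableEq α] {s : Finset α} {pos : α → ℕ}

theorem testBit_pk (hinj : Set.InjOn pos s) {h : α → ℕ} (hb : ∀ T ∈ s, h T < 2 ^ 27) (j : ℕ) :
    (pk s pos h).testBit j = true ↔ ∃ T ∈ s, pos T = j / 27 ∧ (h T).testBit (j % 27) = true :=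
  (pk_aux pos h s hinj hb).2 j

theorem pk_lt (hinj : Set.InjOn pos s) {h : α → ℕ} (hb : ∀ T ∈ s, h T < 2 ^ 27) {N : ℕ}
    (hN : ∀ T ∈ s, pos T < N) : pk s pos h < 2 ^ (27 * N) :=
  (pk_aux pos h s hinj hb).1 N hN

theorem pk_land (hinj : Set.InjOn pos s) {h h' : α → ℕ} (hb : ∀ T ∈ s, h T < 2 ^ 27)
    (hb' : ∀ T ∈ s, h' T < 2 ^ 27) :
    pk s pos h &&& pk s pos h' = pk s pos (fun T => h T &&& h' T) := by
  apply Nat.eq_of_testBit_eq
  intro j
  rw [Bool.eq_iff_iff, Nat.testBit_and, Bool.and_eq_true, testBit_pk hinj hb, testBit_pk hinj hb',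
    testBit_pk hinj (fun T hT => lt_of_le_of_lt Nat.and_le_left (hb T hT))]
  constructor
  · rintro ⟨⟨T, hT, e1, e2⟩, ⟨T', hT', e1', e2'⟩⟩
    have : T = T' := hinj hT hT' (e1.trans e1'.symm)
    subst this
    exact ⟨T, hT, e1, by simp [e2, e2']⟩
  · rintro ⟨T, hT, e1, e2⟩
    rw [Nat.testBit_and, Bool.and_eq_true] at e2
    exact ⟨⟨T, hT, e1, e2.1⟩, ⟨T, hT, e1, e2.2⟩⟩

theorem pk_xor (hinj : Set.InjOn pos s) {h h' : α → ℕ} (hb : ∀ T ∈ s, h T < 2 ^ 27)
    (hb' : ∀ T ∈ s, h' T < 2 ^ 27) :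
    pk s pos h ^^^ pk s pos h' = pk s pos (fun T => h T ^^^ h' T) := by
  apply Nat.eq_of_testBit_eq
  intro j
  have hb2 : ∀ T ∈ s, h T ^^^ h' T < 2 ^ 27 := fun T hT => Nat.xor_lt_two_pow (hb T hT) (hb' T hT)
  by_cases hex : ∃ T ∈ s, pos T = j / 27
  · obtain ⟨T, hT, e⟩ := hex
    have key : ∀ g : α → ℕ, (∀ T ∈ s, g T < 2 ^ 27) →
        (pk s pos g).testBit j = (g T).testBit (j % 27) := by
      intro g hg
      rw [Bool.eq_iff_iff, testBit_pk hinj hg]
      constructor
      · rintro ⟨T', hT', e1, e2⟩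
        have : T = T' := hinj hT hT' (e.trans e1.symm)
        subst this; exact e2
      · intro e2; exact ⟨T, hT, e, e2⟩
    rw [Nat.testBit_xor, key _ hb, key _ hb', key _ hb2, Nat.testBit_xor]
  · have key : ∀ g : α → ℕ, (∀ T ∈ s, g T < 2 ^ 27) → (pk s pos g).testBit j = false := by
      intro g hg
      rw [← Bool.not_eq_true, testBit_pk hinj hg]
      rintro ⟨T, hT, e1, _⟩
      exact hex ⟨T, hT, e1⟩
    rw [Nat.testBit_xor, key _ hb, key _ hb', key _ hb2]; rfl

theorem pk_sign (hinj : Set.InjOn pos s) {h : α → ℕ} (hb : ∀ T ∈ s, h T < 2 ^ 27) :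
    (pk s pos h >>> 26) &&& pk s pos (fun _ => 1) = pk s pos (fun T => h T / 2 ^ 26) := by
  apply Nat.eq_of_testBit_eq
  intro j
  have hb2 : ∀ T ∈ s, h T / 2 ^ 26 < 2 ^ 27 := fun T hT =>
    lt_of_le_of_lt (Nat.div_le_self _ _) (hb T hT)
  rw [Bool.eq_iff_iff, Nat.testBit_and, Bool.and_eq_true, Nat.testBit_shiftRight,
    testBit_pk hinj hb, testBit_pk hinj (fun _ _ => by norm_num), testBit_pk hinj hb2]
  constructor
  · rintro ⟨⟨T, hT, e1, e2⟩, ⟨T', hT', e1', e2'⟩⟩
    have h0 : j % 27 = 0 := by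
      by_contra hc
      have : (1 : ℕ) < 2 ^ (j % 27) := Nat.one_lt_two_pow hc
      rw [Nat.testBit_lt_two_pow this] at e2'
      exact absurd e2' (by simp)
    refine ⟨T, hT, by omega, ?_⟩
    rw [Nat.testBit_div_two_pow, h0]
    rwa [show (26 + j) % 27 = 0 + 26 by omega] at e2
  · rintro ⟨T, hT, e1, e2⟩
    have h0 : j % 27 = 0 := by
      by_contra hc
      have h1 : h T / 2 ^ 26 < 2 := by have := hb T hT; omega
      have : h T / 2 ^ 26 < 2 ^ (j % 27) :=
        lt_of_lt_of_le h1 (by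
          calc 2 = 2 ^ 1 := by norm_num
            _ ≤ 2 ^ (j % 27) := Nat.pow_le_pow_right (by norm_num) (by omega))
      rw [Nat.testBit_lt_two_pow this] at e2
      exact absurd e2 (by simp)
    rw [Nat.testBit_div_two_pow, h0] at e2
    refine ⟨⟨T, hT, by omega, ?_⟩, ⟨T, hT, e1, by rw [h0]; rfl⟩⟩
    rwa [show (26 + j) % 27 = 0 + 26 by omega]

theorem pk_digit (hinj : Set.InjOn pos s) {h : α → ℕ} (hb : ∀ T ∈ s, h T < 2 ^ 27) {T : α}
    (hT : T ∈ s) : (pk s pos h >>> (27 * pos T)) % 2 ^ 27 = h T := by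
  apply Nat.eq_of_testBit_eq
  intro j
  rw [Nat.testBit_mod_two_pow, Nat.testBit_shiftRight, Bool.eq_iff_iff, Bool.and_eq_true,
    testBit_pk hinj hb, decide_eq_true_eq]
  constructor
  · rintro ⟨hj, T', hT', e1, e2⟩
    have : T = T' := hinj hT hT' (by omega)
    subst this
    rwa [show (27 * pos T + j) % 27 = j by omega] at e2
  · intro ht
    have hj : j < 27 := by
      by_contra hc
      have : h T < 2 ^ j := lt_of_lt_of_le (hb T hT) (Nat.pow_le_pow_right (by norm_num) (by omega))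
      rw [Nat.testBit_lt_two_pow this] at ht
      exact absurd ht (by simp)
    exact ⟨hj, T, hT, by omega, by rwa [show (27 * pos T + j) % 27 = j by omega]⟩

theorem pk_inj (hinj : Set.InjOn pos s) {h h' : α → ℕ} (hb : ∀ T ∈ s, h T < 2 ^ 27)
    (hb' : ∀ T ∈ s, h' T < 2 ^ 27) (e : pk s pos h = pk s pos h') {T : α} (hT : T ∈ s) :
    h T = h' T := by
  rw [← pk_digit hinj hb hT, e, pk_digit hinj hb' hT]

end

theorem pk_mod (s : Finset α) (pos : α → ℕ) (h : α → ℕ) (hs : ∑ T ∈ s, h T < 134217727) :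
    pk s pos h % 134217727 = ∑ T ∈ s, h T := by
  have : pk s pos h ≡ ∑ T ∈ s, h T [MOD 134217727] := by
    unfold pk
    apply Nat.ModEq.sum
    intro T _
    have h1 : 2 ^ (27 * pos T) ≡ 1 ^ pos T [MOD 134217727] := by
      rw [pow_mul]; exact Nat.ModEq.pow _ (by decide)
    simpa using Nat.ModEq.mul_left (h T) h1
  rw [this, Nat.mod_eq_of_lt hs]

theorem pk_range_digits (N : ℕ) : ∀ Y : ℕ, Y < 2 ^ (27 * N) →
    Y = pk (range N) id (fun p => (Y >>> (27 * p)) % 2 ^ 27) := by
  intro Y hY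
  apply Nat.eq_of_testBit_eq
  intro j
  rw [Bool.eq_iff_iff, testBit_pk (Set.injOn_id _) (fun p _ => Nat.mod_lt _ (by norm_num))]
  constructor
  · intro ht
    have hj : j < 27 * N := by
      by_contra hc
      have : Y < 2 ^ j := lt_of_lt_of_le hY (Nat.pow_le_pow_right (by norm_num) (by omega))
      rw [Nat.testBit_lt_two_pow this] at ht
      exact absurd ht (by simp)
    refine ⟨j / 27, by simp; omega, rfl, ?_⟩
    rw [Nat.testBit_mod_two_pow, Nat.testBit_shiftRight, show 27 * (j / 27) + j % 27 = j by omega, ht]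
    simp; omega
  · rintro ⟨p, _, e1, e2⟩
    rw [Nat.testBit_mod_two_pow, Nat.testBit_shiftRight, Bool.and_eq_true] at e2
    have e1' : p = j / 27 := e1
    rw [show j = 27 * p + j % 27 by omega]
    exact e2.2

/-- if a packed number is three times a number whose slots have two leading zero bits, every
slot is a multiple of three -/
theorem pk_div3 [DecidableEq α] {s : Finset α} {pos : α → ℕ} (hinj : Set.InjOn pos s) {h : α → ℕ}
    (hb : ∀ T ∈ s, h T < 2 ^ 27) {N : ℕ} (hN : ∀ T ∈ s, pos T < N)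
    (h3 : pk s pos h % 3 = 0)
    (hm : (pk s pos h / 3) &&& pk (range N) id (fun _ => 100663296) = 0) {T : α} (hT : T ∈ s) :
    3 ∣ h T := by
  set Y := pk s pos h / 3 with hYdef
  have hY : Y < 2 ^ (27 * N) := lt_of_le_of_lt (Nat.div_le_self _ _) (pk_lt hinj hb hN)
  set y : ℕ → ℕ := fun p => (Y >>> (27 * p)) % 2 ^ 27 with hy
  have hyb : ∀ p ∈ range N, y p < 2 ^ 27 := fun p _ => Nat.mod_lt _ (by norm_num)
  have hYe : Y = pk (range N) id y := pk_range_digits N Y hY
  rw [hYe, pk_land (Set.injOn_id _) hyb (fun _ _ => by norm_num)] at hm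
  have hz : (0 : ℕ) = pk (range N) id (fun _ => 0) := by simp [pk]
  have hsmall : ∀ p ∈ range N, y p < 2 ^ 25 := by
    intro p hp
    have h0 : y p &&& 100663296 = 0 :=
      pk_inj (Set.injOn_id _) (fun q hq => lt_of_le_of_lt Nat.and_le_left (hyb q hq))
        (fun _ _ => by norm_num) (hm.trans hz) hp
    apply Nat.lt_pow_two_of_testBit
    intro i hi
    by_cases h27 : 27 ≤ i
    · exact Nat.testBit_lt_two_pow (lt_of_lt_of_le (hyb p hp) (Nat.pow_le_pow_right (by norm_num) h27))
    · have ht : (y p &&& 100663296).testBit i = false := by rw [h0]; simp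
      rw [Nat.testBit_and] at ht
      have : i = 25 ∨ i = 26 := by omega
      rcases this with rfl | rfl
      · simpa [show Nat.testBit 100663296 25 = true by decide] using ht
      · simpa [show Nat.testBit 100663296 26 = true by decide] using ht
  have h3Y : pk s pos h = pk (range N) id (fun p => 3 * y p) := by
    rw [← pk_mul, ← hYe]; omega
  have hp : pos T ∈ range N := mem_range.2 (hN T hT)
  have e1 := pk_digit hinj hb hT
  have e2 := pk_digit (s := range N) (pos := id) (h := fun p => 3 * y p) (Set.injOn_id _)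
    (fun p hp => by have := hsmall p hp; omega) hp
  rw [h3Y] at e1
  exact ⟨y (pos T), by rw [← e1]; exact e2⟩

end Pool.Agent.Lib.MP_c96c3a_co
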