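import Mathlib
import Pool.Agent.Lib.MP_c96c3a_co.Pack
import Pool.Agent.Lib.MP_c96c3a_co.Bits

/-! The packed operations of the search compute what they should. -/

namespace Pool.Agent.Lib.MP_c96c3a_co

open Finset

/-- the slot of a set of columns -/
def pos (T : Finset Col) : ℕ := ∑ i ∈ T, ee i

noncomputable def posN (x : ℕ) : ℕ :=
  List.rec (motive := fun _ => ℕ) 0
    (fun i _ ih => Nat.add (Bool.rec (motive := fun _ => ℕ) 0 (ee i) (x.testBit i)) ih) cols

noncomputable def slotTable : ℕ :=
  Nat.rec (motive := fun _ => ℕ) 0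
    (fun x ih => Nat.add ih (Nat.shiftLeft x (11 * (posN x * 12 + pc x)))) 2048

theorem slotTable_spec : ∀ x : Fin 2048,
    (slotTable >>> (11 * (posN x.1 * 12 + pc x.1))) % 2048 = x.1 := by
  decide +kernel

theorem posN_val (T : Finset Col) : posN (val T) = pos T := by
  have h : pos T = ∑ i : Col, Bool.rec (motive := fun _ => ℕ) 0 (ee i) ((val T).testBit i) := by
    rw [pos, ← Finset.sum_ite_mem_eq]
    refine Finset.sum_congr rfl fun i _ => ?_
    rw [testBit_val]
    by_cases h : i ∈ T <;> simp [h]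
  rw [h]
  simp only [Fin.sum_univ_succ, Fin.sum_univ_zero]
  rfl

theorem val_injective {S T : Finset Col} (h : val S = val T) : S = T := by
  ext i
  have h1 := testBit_val S i
  rw [h, testBit_val] at h1
  simpa using h1.symm

theorem pos_inj (m : ℕ) : Set.InjOn pos (lev m : Set (Finset Col)) := by
  intro S hS T hT e
  have h1 := slotTable_spec ⟨val S, val_lt S⟩
  have h2 := slotTable_spec ⟨val T, val_lt T⟩
  simp only [posN_val, pc_val] at h1 h2
  rw [mem_coe, mem_lev] at hS hT
  rw [hS, e] at h1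
  rw [hT] at h2
  exact val_injective (h1.symm.trans h2)

theorem pos_lt (T : Finset Col) : pos T < 650 := by
  have : pos T ≤ pos univ := Finset.sum_le_sum_of_subset (subset_univ T)
  have h2 : pos univ = 649 := by decide +kernel
  omega

theorem pos_insert {i : Col} {T : Finset Col} (h : i ∉ T) : pos (insert i T) = ee i + pos T :=
  Finset.sum_insert h

theorem esym_eq : ∀ (L : List Col), L.Nodup → ∀ m : ℕ,
    esym (L.map Fin.val) m = ∑ T ∈ powersetCard m L.toFinset, 2 ^ (27 * pos T) := by
  intro L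
  induction L with
  | nil =>
    intro _ m
    cases m with
    | zero => simp [esym, pos]
    | succ m => rw [List.toFinset_nil, powersetCard_eq_empty.2 (by simp)]; rfl
  | cons i L ih =>
    intro hn m
    obtain ⟨hi, hn'⟩ := List.nodup_cons.1 hn
    cases m with
    | zero => simp [esym, pos]
    | succ m =>
      have hi' : i ∉ L.toFinset := by simpa using hi
      have e : esym ((i :: L).map Fin.val) (m + 1) =
          esym (L.map Fin.val) (m + 1) + esym (L.map Fin.val) m <<< (27 * ee i) := rfl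
      rw [e, ih hn', ih hn', List.toFinset_cons, powersetCard_succ_insert hi', Finset.sum_union,
        Finset.sum_image, Nat.shiftLeft_eq, Finset.sum_mul]
      · congr 1
        refine Finset.sum_congr rfl fun T hT => ?_
        have : i ∉ T := fun h => hi' ((mem_powersetCard.1 hT).1 h)
        rw [pos_insert this, ← pow_add]; congr 1; ring
      · intro S hS T hT e
        have h1 : i ∉ S := fun h => hi' ((mem_powersetCard.1 hS).1 h)
        have h2 : i ∉ T := fun h => hi' ((mem_powersetCard.1 hT).1 h)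
        rw [← erase_insert h1, e, erase_insert h2]
      · refine Finset.disjoint_left.2 fun T hT hT' => ?_
        obtain ⟨S, _, rfl⟩ := mem_image.1 hT'
        exact hi' ((mem_powersetCard.1 hT).1 (mem_insert_self _ _))

theorem esym_filter (p : Col → Bool) (m : ℕ) :
    esym (((List.finRange 11).filter p).map Fin.val) m =
      pk (lev m) pos (fun T => if ∀ x ∈ T, p x = true then 1 else 0) := by
  rw [esym_eq _ ((List.nodup_finRange 11).filter _), pk]
  simp only [ite_mul, one_mul, zero_mul]
  rw [← Finset.sum_filter]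
  apply Finset.sum_congr _ (fun _ _ => rfl)
  ext T
  simp [mem_powersetCard, subset_iff, and_comm]

theorem esym_cols (m : ℕ) : esym cols m = pk (lev m) pos (fun _ => 1) := by
  have : cols = ((List.finRange 11).filter fun _ => true).map Fin.val := by decide
  rw [this, esym_filter]; simp

theorem esym_erase (i : Col) (m : ℕ) :
    esym (cols.erase i) m = pk (lev m) pos (fun T => if i ∈ T then 0 else 1) := by
  have : ∀ i : Col, cols.erase i = ((List.finRange 11).filter fun x => x != i).map Fin.val := by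
    decide
  rw [this, esym_filter]
  refine pk_congr fun T _ => ?_
  by_cases h : i ∈ T
  · rw [if_pos h, if_neg]; intro h'; simpa using h' i h
  · rw [if_neg h, if_pos]; intro x hx; simpa using fun e : x = i => h (e ▸ hx)

theorem esym_erase2 (i j : Col) (m : ℕ) :
    esym ((cols.erase i).erase j) m = pk (lev m) pos (fun T => if i ∈ T ∨ j ∈ T then 0 else 1) := by
  have : ∀ i j : Col, (cols.erase i).erase j =
      ((List.finRange 11).filter fun x => x != i && x != j).map Fin.val := by
    decide +kernel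
  rw [this, esym_filter]
  refine pk_congr fun T _ => ?_
  by_cases h : i ∈ T ∨ j ∈ T
  · rw [if_pos h, if_neg]
    intro h'
    rcases h with h | h
    · simpa using h' i h
    · simpa using h' j h
  · rw [if_neg h, if_pos]
    intro x hx
    simp only [Bool.and_eq_true, bne_iff_ne, ne_eq]
    exact ⟨fun e => h (Or.inl (e ▸ hx)), fun e => h (Or.inr (e ▸ hx))⟩

theorem pk_shift (m : ℕ) (i : Col) (h : Finset Col → ℕ) :
    pk (lev (m + 1)) pos (fun T => if i ∈ T then h T else 0) =
      pk (lev m) pos (fun T => if i ∈ T then 0 else h (insert i T)) * 2 ^ (27 * ee i) := by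
  unfold pk
  simp only [ite_mul, zero_mul]
  rw [← sum_insert_lev m i (fun T => h T * 2 ^ (27 * pos T)), Finset.sum_mul]
  refine Finset.sum_congr rfl fun T _ => ?_
  split_ifs with hT
  · simp
  · rw [pos_insert hT, mul_assoc, ← pow_add]; congr 2; ring

/-- the mask of the slots containing column `i` -/
theorem msk_eq (m : ℕ) (i : Col) :
    Nat.mul 134217727 (Nat.shiftLeft (esym (cols.erase i) m) (Nat.mul 27 (ee i))) =
      pk (lev (m + 1)) pos (fun T => if i ∈ T then 134217727 else 0) := by
  rw [pk_shift]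
  change 134217727 * (esym (cols.erase i) m <<< (27 * ee i)) = _
  rw [Nat.shiftLeft_eq, esym_erase, ← mul_assoc, pk_mul]
  congr 1
  exact pk_congr fun T _ => by split_ifs <;> simp

theorem and_full {x : ℕ} (hx : x < 2 ^ 27) : x &&& 134217727 = x := by
  have := Nat.and_two_pow_sub_one_eq_mod x 27
  rw [Nat.mod_eq_of_lt hx] at this
  exact this

theorem pk_land_mask {m : ℕ} {h : Finset Col → ℕ} (hb : ∀ T ∈ lev m, h T < 2 ^ 27)
    (p : Finset Col → Prop) [DecidablePred p] :
    pk (lev m) pos h &&& pk (lev m) pos (fun T => if p T then 134217727 else 0) =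
      pk (lev m) pos (fun T => if p T then h T else 0) := by
  rw [pk_land (pos_inj m) hb (fun T _ => by split_ifs <;> norm_num)]
  refine pk_congr fun T hT => ?_
  split_ifs
  · exact and_full (hb T hT)
  · simp

/-- offset representation of a small integer -/
def off (x : ℤ) : ℕ := (x + 67108864).toNat

theorem off_lt {x : ℤ} (h : |x| < 67108864) : off x < 2 ^ 27 := by
  rw [abs_lt] at h; unfold off; omega

theorem off_cast {x : ℤ} (h : |x| < 67108864) : (off x : ℤ) = x + 67108864 := by
  rw [abs_lt] at h; unfold off; omega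

theorem off_xor {x : ℤ} (h : |x| < 67108864) :
    (off x ^^^ (67108863 * 1 + off x / 2 ^ 26)) + 1 = x.natAbs + off x / 2 ^ 26 := by
  rw [abs_lt] at h
  by_cases hx : 0 ≤ x
  · have h1 : off x = 2 ^ 26 * 1 + x.natAbs := by unfold off; omega
    have h2 : off x / 2 ^ 26 = 1 := by omega
    have h3 : x.natAbs < 2 ^ 26 := by omega
    rw [h2, h1]
    congr 1
    apply Nat.eq_of_testBit_eq
    intro j
    rw [Nat.testBit_xor, Nat.testBit_two_pow_mul_add _ h3,
      show 67108863 * 1 + 1 = 2 ^ 26 by norm_num, Nat.testBit_two_pow]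
    split_ifs with hj
    · rw [show decide (26 = j) = false by simp; omega, Bool.xor_false]
    · rw [Nat.testBit_lt_two_pow (lt_of_lt_of_le h3 (Nat.pow_le_pow_right (by norm_num) (by omega)))]
      by_cases e : j = 26
      · subst e; decide
      · have : (1 : ℕ) < 2 ^ (j - 26) := Nat.one_lt_two_pow (by omega)
        rw [Nat.testBit_lt_two_pow this]
        simp; omega
  · have h2 : off x / 2 ^ 26 = 0 := by unfold off; omega
    have h3 : off x < 2 ^ 26 := by unfold off; omega
    have h4 : off x ^^^ (67108863 * 1 + 0) = 2 ^ 26 - (off x + 1) := by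
      apply Nat.eq_of_testBit_eq
      intro j
      rw [Nat.testBit_xor, Nat.testBit_two_pow_sub_succ h3,
        show 67108863 * 1 + 0 = 2 ^ 26 - 1 by norm_num, Nat.testBit_two_pow_sub_one]
      by_cases hj : j < 26
      · simp [hj]
      · rw [Nat.testBit_lt_two_pow (lt_of_lt_of_le h3 (Nat.pow_le_pow_right (by norm_num) (by omega)))]
        simp [hj]
    rw [h2, h4]
    unfold off
    omega

/-- packed offset vector -/
def PKo (m : ℕ) (f : Finset Col → ℤ) : ℕ := pk (lev m) pos fun T => off (f T)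

/-- packed vector of absolute values -/
def PKa (m : ℕ) (f : Finset Col → ℤ) : ℕ := pk (lev m) pos fun T => (f T).natAbs

/-- integer version of the packing -/
def PZ (m : ℕ) (f : Finset Col → ℤ) : ℤ := ∑ T ∈ lev m, f T * 2 ^ (27 * pos T)

theorem abs_lt_of_L1 {m : ℕ} {f : Finset Col → ℤ} (h : L1 m f ≤ 39916800) {T : Finset Col}
    (hT : T ∈ lev m) : |f T| < 67108864 := by
  have : |f T| ≤ L1 m f := Finset.single_le_sum (f := fun T => |f T|) (fun _ _ => abs_nonneg _) hT
  omega

theorem PKo_cast {m : ℕ} {f : Finset Col → ℤ} (h : L1 m f ≤ 39916800) :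
    (PKo m f : ℤ) = PZ m f + PZ m (fun _ => 67108864) := by
  rw [PKo, pk_cast, PZ, PZ, ← Finset.sum_add_distrib]
  refine Finset.sum_congr rfl fun T hT => ?_
  rw [off_cast (abs_lt_of_L1 h hT)]; ring

theorem xor_step {m : ℕ} {f : Finset Col → ℤ} (h : L1 m f ≤ 39916800) :
    Nat.land (Nat.shiftRight (PKo m f) 26) (esym cols m) = pk (lev m) pos (fun T => off (f T) / 2 ^ 26) ∧
    Nat.xor (PKo m f) (Nat.add (Nat.mul 67108863 (esym cols m))
      (Nat.land (Nat.shiftRight (PKo m f) 26) (esym cols m))) =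
      pk (lev m) pos (fun T => off (f T) ^^^ (67108863 * 1 + off (f T) / 2 ^ 26)) := by
  have hb : ∀ T ∈ lev m, off (f T) < 2 ^ 27 := fun T hT => off_lt (abs_lt_of_L1 h hT)
  have h1 : Nat.land (Nat.shiftRight (PKo m f) 26) (esym cols m) =
      pk (lev m) pos (fun T => off (f T) / 2 ^ 26) := by
    rw [esym_cols]; exact pk_sign (pos_inj m) hb
  refine ⟨h1, ?_⟩
  rw [h1, esym_cols]
  change PKo m f ^^^ (67108863 * pk (lev m) pos (fun _ => 1) + _) = _
  rw [pk_mul, pk_add]
  exact pk_xor (pos_inj m) hb fun T hT => by have := hb T hT; omega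

theorem absv_eq {m : ℕ} {f : Finset Col → ℤ} (h : L1 m f ≤ 39916800) :
    absv (PKo m f) (esym cols m) (Nat.mul 67108863 (esym cols m)) = PKa m f := by
  obtain ⟨h1, h2⟩ := xor_step h
  unfold absv
  simp only
  rw [h2, h1, esym_cols]
  change pk _ _ _ + pk _ _ _ - pk _ _ _ = _
  rw [pk_add, pk_congr (h' := fun T => (f T).natAbs + off (f T) / 2 ^ 26)
    (fun T hT => off_xor (abs_lt_of_L1 h hT)), ← pk_add, Nat.add_sub_cancel]
  rfl

theorem L1_natAbs (m : ℕ) (f : Finset Col → ℤ) :
    ((∑ T ∈ lev m, (f T).natAbs : ℕ) : ℤ) = L1 m f := by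
  simp [L1]

theorem sab_bound {m : ℕ} {f : Finset Col → ℤ} (h : L1 m f ≤ 39916800) :
    L1 m f ≤ (Nat.mod (Nat.xor (PKo m f) (Nat.add (Nat.mul 67108863 (esym cols m))
      (Nat.land (Nat.shiftRight (PKo m f) 26) (esym cols m)))) 134217727 : ℕ) + (Nat.choose 11 m : ℕ) := by
  rw [(xor_step h).2]
  have hx : ∀ T ∈ lev m, off (f T) ^^^ (67108863 * 1 + off (f T) / 2 ^ 26) ≤ (f T).natAbs ∧
      (f T).natAbs ≤ (off (f T) ^^^ (67108863 * 1 + off (f T) / 2 ^ 26)) + 1 := by
    intro T hT
    have h1 := off_xor (abs_lt_of_L1 h hT)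
    have h2 := off_lt (abs_lt_of_L1 h hT)
    omega
  have h1 := Finset.sum_le_sum fun T hT => (hx T hT).1
  have h2 := Finset.sum_le_sum fun T hT => (hx T hT).2
  have h3 := L1_natAbs m f
  rw [Finset.sum_add_distrib, Finset.sum_const, card_powersetCard] at h2
  simp only [card_univ, Fintype.card_fin, smul_eq_mul, mul_one] at h1 h2
  change _ ≤ ((pk _ _ _ % 134217727 : ℕ) : ℤ) + _
  rw [pk_mod _ _ _ (by simp only [mul_one]; omega)]
  simp only [mul_one]
  omega

/-- the packed slice -/
noncomputable def Yv (m : ℕ) (X : ℕ) (i : ℕ) : ℕ :=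
  Nat.shiftRight (Nat.land X (Nat.mul 134217727 (Nat.shiftLeft (esym (cols.erase i) m) (Nat.mul 27 (ee i)))))
    (Nat.mul 27 (ee i))

theorem Yv_eq {m : ℕ} {f : Finset Col → ℤ} (h : L1 (m + 1) f ≤ 39916800) (i : Col) :
    Yv m (PKo (m + 1) f) i = pk (lev m) pos (fun T => if i ∈ T then 0 else off (f (insert i T))) := by
  unfold Yv
  rw [msk_eq]
  change (PKo (m + 1) f &&& _) >>> (27 * ee i) = _
  rw [PKo, pk_land_mask (fun T hT => off_lt (abs_lt_of_L1 h hT)), pk_shift, Nat.shiftRight_eq_div_pow,
    Nat.mul_div_cancel _ (by positivity)]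

theorem insert_mem_lev {m : ℕ} {i : Col} {T : Finset Col} (hT : T ∈ lev m) (hi : i ∉ T) :
    insert i T ∈ lev (m + 1) := by
  rw [mem_lev] at hT ⊢; rw [card_insert_of_notMem hi, hT]

theorem Yv_sub {m : ℕ} {f : Finset Col → ℤ} (h : L1 (m + 1) f ≤ 39916800) (i : Col) :
    (Yv m (PKo (m + 1) f) i : ℤ) - (Nat.mul 67108864 (esym (cols.erase i) m) : ℕ) = PZ m (sl f i) := by
  rw [Yv_eq h, esym_erase]
  change _ - ((67108864 * pk _ _ _ : ℕ) : ℤ) = _
  rw [pk_mul, pk_cast, pk_cast, PZ, ← Finset.sum_sub_distrib]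
  refine Finset.sum_congr rfl fun T hT => ?_
  unfold sl
  split_ifs with hi
  · simp
  · rw [off_cast (abs_lt_of_L1 h (insert_mem_lev hT hi))]; push_cast; ring

theorem slice_sum {m : ℕ} {f : Finset Col → ℤ} (h : L1 (m + 1) f ≤ 39916800) (i : Col) :
    ((Nat.mod (Nat.land (PKa (m + 1) f)
      (Nat.mul 134217727 (Nat.shiftLeft (esym (cols.erase i) m) (Nat.mul 27 (ee i))))) 134217727 : ℕ) : ℤ)
      = L1 m (sl f i) := by
  rw [msk_eq]
  change (((PKa (m + 1) f &&& _) % 134217727 : ℕ) : ℤ) = _
  have hb : ∀ T ∈ lev (m + 1), (f T).natAbs < 2 ^ 27 := fun T hT => by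
    have := abs_lt_of_L1 h hT
    rw [abs_lt] at this; omega
  have h1 : ∑ T ∈ lev (m + 1), (if i ∈ T then (f T).natAbs else 0) ≤ ∑ T ∈ lev (m + 1), (f T).natAbs :=
    Finset.sum_le_sum fun T _ => by split_ifs <;> simp
  have h2 := L1_natAbs (m + 1) f
  rw [PKa, pk_land_mask hb, pk_mod _ _ _ (by omega), L1_sl]
  push_cast
  rfl

theorem twin_test {m : ℕ} {f : Finset Col → ℤ} (h : L1 (m + 1) f ≤ 39916800) {i j : Col}
    (e : Nat.land (Yv m (PKo (m + 1) f) i) (Nat.mul 134217727 (esym ((cols.erase j).erase i) m)) =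
      Nat.land (Yv m (PKo (m + 1) f) j) (Nat.mul 134217727 (esym ((cols.erase j).erase i) m)))
    (T : Finset Col) (hT : T.card = m + 1) : f (T.map (Equiv.swap i j).toEmbedding) = f T := by
  have hm : Nat.mul 134217727 (esym ((cols.erase j).erase i) m) =
      pk (lev m) pos (fun T => if ¬(j ∈ T ∨ i ∈ T) then 134217727 else 0) := by
    rw [esym_erase2]
    change 134217727 * _ = _
    rw [pk_mul]
    exact pk_congr fun T _ => by by_cases h : j ∈ T ∨ i ∈ T <;> simp [h]
  have hb : ∀ x : Col, ∀ T ∈ lev m, (if x ∈ T then 0 else off (f (insert x T))) < 2 ^ 27 := by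
    intro x T hT
    split_ifs with hx
    · norm_num
    · exact off_lt (abs_lt_of_L1 h (insert_mem_lev hT hx))
  rw [hm, Yv_eq h, Yv_eq h] at e
  change pk _ _ _ &&& _ = pk _ _ _ &&& _ at e
  rw [pk_land_mask (hb i), pk_land_mask (hb j)] at e
  have key : ∀ S ∈ lev m, i ∉ S → j ∉ S → f (insert i S) = f (insert j S) := by
    intro S hS hi hj
    have hb2 : ∀ x : Col, ∀ T ∈ lev m,
        (if ¬(j ∈ T ∨ i ∈ T) then (if x ∈ T then 0 else off (f (insert x T))) else 0) < 2 ^ 27 := by
      intro x T hT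
      by_cases hc : ¬(j ∈ T ∨ i ∈ T)
      · rw [if_pos hc]; exact hb x T hT
      · rw [if_neg hc]; norm_num
    have := pk_inj (pos_inj m) (hb2 i) (hb2 j) e hS
    simp only [hi, hj, or_self, not_false_eq_true, if_true, if_false] at this
    have h1 := off_cast (abs_lt_of_L1 h (insert_mem_lev hS hi))
    have h2 := off_cast (abs_lt_of_L1 h (insert_mem_lev hS hj))
    omega
  have hsw : ∀ a b : Col, a ∈ T → b ∉ T →
      T.map (Equiv.swap a b).toEmbedding = insert b (T.erase a) := by
    intro a b ha hb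
    ext x
    simp only [mem_map_equiv, Equiv.symm_swap, mem_insert, mem_erase]
    by_cases h1 : x = b
    · subst h1; simp [ha]
    · by_cases h2 : x = a
      · subst h2; simp [hb, h1]
      · simp [Equiv.swap_apply_of_ne_of_ne h2 h1, h1, h2]
  have herase : ∀ a ∈ T, T.erase a ∈ lev m := fun a ha => by
    rw [mem_lev, card_erase_of_mem ha, hT]; rfl
  by_cases hi : i ∈ T <;> by_cases hj : j ∈ T
  · congr 1
    ext x
    simp only [mem_map_equiv, Equiv.symm_swap]
    by_cases h1 : x = i
    · subst h1; simp [hi, hj]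
    · by_cases h2 : x = j
      · subst h2; simp [hi, hj]
      · simp [Equiv.swap_apply_of_ne_of_ne h1 h2]
  · rw [hsw i j hi hj, ← key _ (herase i hi) (notMem_erase _ _) (fun h => hj (mem_of_mem_erase h)),
      insert_erase hi]
  · rw [Equiv.swap_comm, hsw j i hj hi,
      key _ (herase j hj) (fun h => hi (mem_of_mem_erase h)) (notMem_erase _ _), insert_erase hj]
  · congr 1
    ext x
    simp only [mem_map_equiv, Equiv.symm_swap]
    by_cases h1 : x = i
    · subst h1; simp [hi, hj]
    · by_cases h2 : x = j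
      · subst h2; simp [hi, hj]
      · simp [Equiv.swap_apply_of_ne_of_ne h1 h2]

theorem hmask_eq : hmask = pk (range 650) id (fun _ => 100663296) := by
  decide +kernel

theorem div3_sound {m : ℕ} {f : Finset Col → ℤ} (h : L1 m f ≤ 39916800)
    (e : div3 (PKa m f) hmask = true) (T : Finset Col) (hT : T.card = m) : (3 : ℤ) ∣ f T := by
  have hb : ∀ T ∈ lev m, (f T).natAbs < 2 ^ 27 := fun T hT => by
    have := abs_lt_of_L1 h hT
    rw [abs_lt] at this; omega
  unfold div3 at e
  cases h1 : Nat.beq (Nat.mod (PKa m f) 3) 0 with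
  | false => rw [h1] at e; exact absurd e (by simp)
  | true =>
    rw [h1] at e
    have := pk_div3 (pos_inj m) hb (N := 650) (fun T _ => pos_lt T) (Nat.eq_of_beq_eq_true h1)
      (by rw [← hmask_eq]; exact Nat.eq_of_beq_eq_true e) (mem_lev.2 hT)
    exact Int.natCast_dvd.2 this

end Pool.Agent.Lib.MP_c96c3a_co
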