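import Mathlib
import Pool.Agent.Lib.MP_c96c3a_co.Bits

/-! Configurations, minimal configurations, and the symmetry breaking rules they satisfy. -/

namespace Pool.Agent.Lib.MP_c96c3a_co

open Finset

/-- the key by which rows are compared -/
def key (R : Finset Col) : ℕ := R.card * 2048 + val R

theorem key_lt (R : Finset Col) : key R < 32768 := by
  have h1 : R.card ≤ 11 := by simpa using card_le_univ R
  have := val_lt R
  unfold key; omega

/-- union of the rows -/
def U : List (Finset Col) → Finset Col
  | [] => ∅
  | R :: L => R ∪ U L

theorem U_append (P Q : List (Finset Col)) : U (P ++ Q) = U P ∪ U Q := by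
  induction P with
  | nil => simp [U]
  | cons R P ih => simp [U, ih, union_assoc]

theorem subset_U {P : List (Finset Col)} {R : Finset Col} (h : R ∈ P) : R ⊆ U P := by
  induction P with
  | nil => simp at h
  | cons S P ih =>
    rcases List.mem_cons.1 h with rfl | h
    · exact subset_union_left
    · exact (ih h).trans subset_union_right

theorem U_subset {P : List (Finset Col)} {S : Finset Col} (h : ∀ R ∈ P, R ⊆ S) : U P ⊆ S := by
  induction P with
  | nil => simp [U]
  | cons R P ih =>
    exact union_subset (h R (by simp)) (ih fun R' hR' => h R' (List.mem_cons_of_mem _ hR'))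

theorem U_map (π : Equiv.Perm Col) (P : List (Finset Col)) :
    U (P.map fun R => R.map π.toEmbedding) = (U P).map π.toEmbedding := by
  induction P with
  | nil => simp [U]
  | cons R P ih => simp [U, ih, map_union]

/-- the rows, listed from the bottom, of a matrix that can be arranged as an upper triangular
sign matrix with last row all ones and permanent of the given absolute value -/
structure Valid (C : List (Finset Col)) : Prop where
  len : C.length = 11
  head : C.head? = some ∅
  chain : ∀ t, (U (C.take t)).card ≤ t
  per : |G C ∅| = 2029568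

/-- the potential -/
def Phi (a : ℕ) (C : List (Finset Col)) : ℕ := C.foldl (fun a R => a * 32768 + key R) a

theorem Phi_lt_aux : ∀ (Q' Q : List (Finset Col)) (a b : ℕ), Q'.length = Q.length → a < b →
    Phi a Q' < Phi b Q := by
  intro Q'
  induction Q' with
  | nil =>
    intro Q a b h hab
    have : Q = [] := List.length_eq_zero_iff.1 h.symm
    subst this; exact hab
  | cons R' Q' ih =>
    intro Q a b h hab
    cases Q with
    | nil => simp at h
    | cons R Q =>
      apply ih Q _ _ (by simpa using h)
      have := key_lt R'
      have h2 : (a + 1) * 32768 ≤ b * 32768 := Nat.mul_le_mul_right _ hab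
      beta_reduce
      omega

theorem Phi_lt (P Q' Q : List (Finset Col)) (R' R : Finset Col) (h : Q'.length = Q.length)
    (hk : key R' < key R) : Phi 0 (P ++ R' :: Q') < Phi 0 (P ++ R :: Q) := by
  unfold Phi
  rw [List.foldl_append, List.foldl_append, List.foldl_cons, List.foldl_cons]
  exact Phi_lt_aux Q' Q _ _ h (by omega)

/-- a valid configuration of least potential -/
def Mini (C : List (Finset Col)) : Prop := Valid C ∧ ∀ C', Valid C' → Phi 0 C ≤ Phi 0 C'

theorem exists_mini {C : List (Finset Col)} (h : Valid C) : ∃ C, Mini C := by
  classical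
  have hex : ∃ n, ∃ C, Valid C ∧ Phi 0 C = n := ⟨_, C, h, rfl⟩
  obtain ⟨C0, h0, e⟩ := Nat.find_spec hex
  exact ⟨C0, h0, fun C' h' => e ▸ Nat.find_min' hex ⟨C', h', rfl⟩⟩

theorem Mini.key_le {P Q Q' : List (Finset Col)} {R R' : Finset Col} (h : Mini (P ++ R :: Q))
    (h' : Valid (P ++ R' :: Q')) : key R ≤ key R' := by
  by_contra hc
  have e1 := h.1.len
  have e2 := h'.len
  simp only [List.length_append, List.length_cons] at e1 e2
  exact absurd (h.2 _ h') (not_le.2 (Phi_lt P Q' Q R' R (by omega) (by omega)))

theorem Valid.chain' {P Q : List (Finset Col)} (h : Valid (P ++ Q)) : (U P).card ≤ P.length := by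
  simpa using h.chain P.length

theorem head?_append_of_ne {P : List (Finset Col)} (hP : P ≠ []) (Q : List (Finset Col)) :
    (P ++ Q).head? = P.head? := by
  cases P with
  | nil => exact absurd rfl hP
  | cons a P => rfl

theorem valid_map_tail {P Q : List (Finset Col)} (π : Equiv.Perm Col) (h : Valid (P ++ Q))
    (hP : P ≠ []) (hU : (U P).map π.toEmbedding = U P)
    (hG : ∀ T : Finset Col, T.card = Q.length → G P (T.map π.toEmbedding) = G P T) :
    Valid (P ++ Q.map fun R => R.map π.toEmbedding) where
  len := by simpa using h.len
  head := by rw [head?_append_of_ne hP, ← head?_append_of_ne hP Q]; exact h.head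
  chain := by
    intro t
    have := h.chain t
    by_cases ht : t ≤ P.length
    · rwa [List.take_append_of_le_length ht] at this ⊢
    · rw [List.take_append, List.take_of_length_le (by omega), U_append] at this ⊢
      rw [← List.map_take, U_map, ← hU, ← map_union, card_map]
      exact this
  per := by
    rw [G_perm List.perm_append_comm, ← h.per, G_perm (L := P ++ Q) List.perm_append_comm]
    have := G_map_append π P P Q.length hG Q ∅ (by simp)
    rw [map_empty] at this
    rw [this]

theorem key_swap_lt {R : Finset Col} {i j : Col} (hij : (j : ℕ) = i + 1) (hi : i ∉ R) (hj : j ∈ R) :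
    key (R.map (Equiv.swap i j).toEmbedding) < key R := by
  have hne : i ≠ j := fun e => by rw [e] at hij; omega
  have e : R.map (Equiv.swap i j).toEmbedding = insert i (R.erase j) := by
    ext x
    simp only [mem_map_equiv, Equiv.symm_swap, mem_insert, mem_erase]
    by_cases h1 : x = i
    · subst h1; simp [hj]
    · by_cases h2 : x = j
      · subst h2; simp [hi, h1]
      · simp [Equiv.swap_apply_of_ne_of_ne h1 h2, h1, h2]
  unfold key
  rw [card_map, e, val, val, Finset.sum_insert (fun h => hi (mem_of_mem_erase h)),
    ← Finset.add_sum_erase R _ hj, hij, pow_succ]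
  have : 0 < 2 ^ (i : ℕ) := by positivity
  omega

theorem twin_rule {P Q : List (Finset Col)} {R : Finset Col} (h : Mini (P ++ R :: Q)) (hP : P ≠ [])
    {i j : Col} (hij : (j : ℕ) = i + 1) (hU : i ∈ U P ↔ j ∈ U P)
    (hG : ∀ T : Finset Col, T.card = Q.length + 1 →
      G P (T.map (Equiv.swap i j).toEmbedding) = G P T) (hj : j ∈ R) : i ∈ R := by
  by_contra hi
  have hU' : (U P).map (Equiv.swap i j).toEmbedding = U P := by
    ext x
    simp only [mem_map_equiv, Equiv.symm_swap]
    by_cases h1 : x = i
    · subst h1; simp [hU]
    · by_cases h2 : x = j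
      · subst h2; simp [hU]
      · simp [Equiv.swap_apply_of_ne_of_ne h1 h2]
  have hv := valid_map_tail (Equiv.swap i j) h.1 hP hU' (by simpa using hG)
  exact absurd (h.key_le hv) (not_le.2 (key_swap_lt hij hi hj))

theorem map_eq_of_fix (π : Equiv.Perm Col) {S R : Finset Col} (hfix : ∀ i ∈ S, π i = i)
    (hR : R ⊆ S) : R.map π.toEmbedding = R := by
  apply Finset.eq_of_subset_of_card_le _ (by rw [card_map])
  intro y hy
  obtain ⟨x, hx, rfl⟩ := mem_map.1 hy
  change π x ∈ R
  rwa [hfix x (hR hx)]

theorem G_map_of_fix (π : Equiv.Perm Col) {P : List (Finset Col)} (hfix : ∀ i ∈ U P, π i = i)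
    (T : Finset Col) : G P (T.map π.toEmbedding) = G P T := by
  have : (P.map fun R => R.map π.toEmbedding) = P := by
    conv_rhs => rw [← List.map_id P]
    exact List.map_congr_left fun R hR => map_eq_of_fix π hfix (subset_U hR)
  rw [← G_map π P T, this]

theorem lower_U : ∀ (P Q : List (Finset Col)), Mini (P ++ Q) →
    ∀ i j : Col, (j : ℕ) = i + 1 → j ∈ U P → i ∈ U P := by
  intro P
  induction P using List.reverseRecOn with
  | nil => intro Q _ i j _ hj; simp [U] at hj
  | append_singleton P R ih =>
    intro Q h i j hij hj
    rw [List.append_assoc] at h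
    rw [U_append] at hj ⊢
    simp only [U, union_empty, mem_union] at hj ⊢
    by_cases hP : P = []
    · subst hP
      have := h.1.head
      simp only [List.nil_append, List.cons_append, List.head?_cons, Option.some.injEq] at this
      subst this
      simp [U] at hj
    by_cases hi : i ∈ U P
    · exact Or.inl hi
    have hj' : j ∉ U P := fun hj' => hi (ih _ h i j hij hj')
    refine Or.inr (twin_rule (Q := Q) h hP hij (by simp [hi, hj']) (fun T _ => ?_)
      (hj.resolve_left hj'))
    apply G_map_of_fix
    intro x hx
    exact Equiv.swap_apply_of_ne_of_ne (fun e => hi (e ▸ hx)) (fun e => hj' (e ▸ hx))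

theorem U_eq_seg {P Q : List (Finset Col)} (h : Mini (P ++ Q)) : U P = seg (U P).card :=
  eq_seg_of_lower _ (lower_U P Q h)

theorem insert_rule {P1 P2 Q : List (Finset Col)} {R' R : Finset Col}
    (h : Mini (P1 ++ R' :: (P2 ++ R :: Q))) (hP : P1 ≠ [])
    (hc : ∀ s ≤ P2.length + 1, (U (P1 ++ (R' :: P2).take s) ∪ R).card ≤ P1.length + s + 1)
    (π : Equiv.Perm Col) (hfix : ∀ i ∈ U P1, π i = i) : key R' ≤ key (R.map π.toEmbedding) := by
  have hv : Valid (P1 ++ R :: (R' :: P2 ++ Q)) :=
    { len := by have := h.1.len; simp at this ⊢; omega
      head := by rw [head?_append_of_ne hP, ← head?_append_of_ne hP]; exact h.1.head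
      chain := by
        intro t
        by_cases ht : t ≤ P1.length
        · have := h.1.chain t
          rwa [List.take_append_of_le_length ht] at this ⊢
        · obtain ⟨s, rfl⟩ : ∃ s, t = P1.length + (s + 1) := ⟨t - P1.length - 1, by omega⟩
          rw [List.take_length_add_append, List.take_succ_cons, U_append]
          by_cases hs : s ≤ P2.length + 1
          · have := hc s hs
            rw [U_append] at this
            rw [List.take_append_of_le_length (by simpa using hs), U, union_comm R, ← union_assoc]
            omega
          · obtain ⟨s', rfl⟩ : ∃ s', s = (R' :: P2).length + s' :=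
              ⟨s - (P2.length + 1), by simp; omega⟩
            have := h.1.chain (P1.length + ((R' :: P2).length + (s' + 1)))
            rw [List.take_length_add_append, ← List.cons_append, List.take_length_add_append,
              List.take_succ_cons, U_append, U_append] at this
            rw [List.take_length_add_append, U, U_append, ← union_assoc R, union_comm R, union_assoc]
            exact this
      per := by
        rw [← h.1.per]
        refine congrArg (fun g : Finset Col → ℤ => |g ∅|) (G_perm ?_)
        apply List.Perm.append_left
        exact (List.perm_middle (l₁ := R' :: P2)).symm }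
  have hv2 := valid_map_tail π hv hP (map_eq_of_fix π hfix Subset.rfl)
    (fun T _ => G_map_of_fix π hfix T)
  exact h.key_le hv2

theorem U_symmDiff (N : Finset Col) (L : List (Finset Col)) :
    N ∪ U (L.map fun R => symmDiff R N) = N ∪ U L := by
  induction L with
  | nil => rfl
  | cons R L ih =>
    simp only [List.map_cons, U]
    rw [← union_assoc, union_comm N, union_assoc, ih]
    ext x
    simp only [mem_union, Finset.mem_symmDiff]
    tauto

theorem rebase_rule {Q : List (Finset Col)} {R1 R2 R3 : Finset Col}
    (h : Mini ([R1, R2] ++ R3 :: Q)) : key R3 ≤ key (symmDiff R3 R2) := by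
  have h1 : R1 = ∅ := by simpa using h.1.head
  subst h1
  have hv : Valid ([∅, R2] ++ (R3 :: Q).map fun R => symmDiff R R2) :=
    { len := by simpa using h.1.len
      head := rfl
      chain := by
        intro t
        have := h.1.chain t
        match t with
        | 0 => simp [U]
        | 1 => simp [U]
        | t + 2 =>
          simp only [List.cons_append, List.nil_append, List.take_succ_cons, U, empty_union] at this ⊢
          rwa [← List.map_take, U_symmDiff]
      per := by
        rw [← h.1.per, ← abs_G_symmDiff R2 ([∅, R2] ++ R3 :: Q)]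
        refine congrArg (fun g : Finset Col → ℤ => |g ∅|) (G_perm ?_)
        simp only [List.cons_append, List.nil_append, List.map_cons, symmDiff_self, bot_eq_empty]
        rw [show symmDiff (∅ : Finset Col) R2 = R2 from bot_symmDiff R2]
        exact List.Perm.swap _ _ _ }
  exact h.key_le hv

theorem valid_of_matrix (B : Matrix Col Col ℤ) (hB : ∀ i j, B i j = 1 ∨ B i j = -1)
    (hup : ∀ i j, B i j = -1 → i ≤ j) (hper : |B.permanent| = 2029568) : ∃ C, Valid C := by
  set f : Col → Finset Col := fun i => univ.filter fun j => B i.rev j = -1 with hf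
  have hmat : (Matrix.of fun i j => sg (f i) j) = B.submatrix Fin.revPerm id := by
    ext i j
    rcases hB i.rev j with e | e <;> simp [sg, hf, e]
  have hG : G (List.ofFn f) ∅ = B.permanent := by
    rw [← permanent_eq_G, hmat, Matrix.permanent_permute_cols]
  have hsub : ∀ i : Col, ∀ j ∈ f i, 10 ≤ (i : ℕ) + j := by
    intro i j hj
    simp only [hf, mem_filter, mem_univ, true_and] at hj
    have := hup _ _ hj
    rw [Fin.le_def, Fin.val_rev] at this
    omega
  refine ⟨(List.ofFn f).map fun R => symmDiff R (f 0), by simp, ?_, ?_, ?_⟩
  · simp [List.ofFn_succ]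
  · intro t
    by_cases ht : 11 ≤ t
    · exact (card_le_univ _).trans (by simpa using ht)
    have hs : U (((List.ofFn f).map fun R => symmDiff R (f 0)).take t) ⊆ univ \ seg (11 - t) := by
      apply U_subset
      intro R hR x hx
      obtain ⟨n, hn, rfl⟩ := List.getElem_of_mem hR
      simp only [List.length_take, List.length_map, List.length_ofFn] at hn
      simp only [List.getElem_take, List.getElem_map, List.getElem_ofFn, Finset.mem_symmDiff] at hx
      simp only [mem_sdiff, mem_univ, seg, mem_filter, true_and]
      rcases hx with ⟨hx, _⟩ | ⟨hx, _⟩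
      · have := hsub _ _ hx; simp only at this; omega
      · have := hsub _ _ hx; simp only [Fin.val_zero] at this; omega
    refine (card_le_card hs).trans ?_
    rw [card_sdiff_of_subset (subset_univ _), card_seg (by omega)]
    simp; omega
  · rw [abs_G_symmDiff, hG, hper]

end Pool.Agent.Lib.MP_c96c3a_co
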