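import Mathlib
import Pool.Agent.Lib.MP_c96c3a_co.Link
import Pool.Agent.Lib.MP_c96c3a_co.Rules

/-! Soundness of the search. -/

namespace Pool.Agent.Lib.MP_c96c3a_co

open Finset

/-- the part of the next vector coming from the columns in `S` -/
def part (f : Finset Col → ℤ) (R S : Finset Col) (T : Finset Col) : ℤ := ∑ i ∈ S, sg R i * sl f i T

theorem sum_L1_le {m : ℕ} {f : Finset Col → ℤ} (hL : ((m : ℤ) + 1) * L1 (m + 1) f ≤ 39916800)
    (S : Finset Col) : ∑ i ∈ S, L1 m (sl f i) ≤ 39916800 := by
  refine le_trans ?_ hL
  rw [← sum_L1_sl]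
  exact Finset.sum_le_sum_of_subset_of_nonneg (subset_univ S) fun i _ _ => L1_nonneg _ _

theorem L1_part_le {m : ℕ} {f : Finset Col → ℤ} (hL : ((m : ℤ) + 1) * L1 (m + 1) f ≤ 39916800)
    (R S : Finset Col) : L1 m (part f R S) ≤ 39916800 :=
  (L1_sum_le m R f S).trans (sum_L1_le hL S)

theorem L1_le_of_mul {m : ℕ} {f : Finset Col → ℤ} (hL : ((m : ℤ) + 1) * L1 (m + 1) f ≤ 39916800) :
    L1 (m + 1) f ≤ 39916800 := by
  have := L1_nonneg (m + 1) f
  have h2 : (0 : ℤ) ≤ m := by positivity
  nlinarith

theorem PKo_part_insert {m : ℕ} {f : Finset Col → ℤ}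
    (hL : ((m : ℤ) + 1) * L1 (m + 1) f ≤ 39916800) (R : Finset Col) {S : Finset Col} {i : Col}
    (hi : i ∉ S) :
    (PKo m (part f R (insert i S)) : ℤ) = PKo m (part f R S) + sg R i * PZ m (sl f i) := by
  rw [PKo_cast (L1_part_le hL R _), PKo_cast (L1_part_le hL R _)]
  have : PZ m (part f R (insert i S)) = PZ m (part f R S) + sg R i * PZ m (sl f i) := by
    unfold PZ part
    rw [Finset.mul_sum, ← Finset.sum_add_distrib]
    refine Finset.sum_congr rfl fun T _ => ?_
    rw [Finset.sum_insert hi]; ring
  rw [this]; ring

theorem L1_part_univ (m : ℕ) (f : Finset Col → ℤ) (R S : Finset Col) :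
    L1 m (part f R univ) ≤ L1 m (part f R S) + ∑ i ∈ Sᶜ, L1 m (sl f i) := by
  refine le_trans ?_ (add_le_add_right (L1_sum_le m R f Sᶜ) _)
  unfold L1
  rw [← Finset.sum_add_distrib]
  refine Finset.sum_le_sum fun T _ => le_trans (le_of_eq ?_) (abs_add_le _ _)
  unfold part
  rw [Finset.sum_add_sum_compl]

theorem mkCC_cons (m i : ℕ) (L : List ℕ) : mkCC m (i :: L) =
    CC.cons i (Nat.mul 27 (ee i))
      (Nat.mul 134217727 (Nat.shiftLeft (esym (cols.erase i) m) (Nat.mul 27 (ee i))))
      (Nat.mul 67108864 (esym (cols.erase i) m))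
      (Nat.mul 134217727 (esym ((cols.erase i).erase (i - 1)) m))
      (Nat.pow 2 i) (mkCC m L) := rfl

/-- the columns decided before column `j` when the free columns are those below `K` -/
def dec (j K : ℕ) : Finset Col := univ.filter fun i => (i : ℕ) < j ∨ K ≤ (i : ℕ)

theorem dec_succ {j K : ℕ} (hj : j < K) (hK : K ≤ 11) :
    (⟨j, by omega⟩ : Col) ∉ dec j K ∧ dec (j + 1) K = insert ⟨j, by omega⟩ (dec j K) := by
  constructor
  · simp [dec, hj]
  · ext x
    simp only [dec, mem_filter, mem_univ, true_and, mem_insert, Fin.ext_iff]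
    omega

theorem dec_self (K : ℕ) : dec K K = univ := by
  ext x; simp only [dec, mem_filter, mem_univ, true_and, iff_true]; omega

theorem acc0_eq {m : ℕ} {f : Finset Col → ℤ} (hL : ((m : ℤ) + 1) * L1 (m + 1) f ≤ 39916800)
    (R : Finset Col) : ∀ (n K : ℕ), K + n = 11 → (∀ i ∈ R, (i : ℕ) < K) →
    acc0 (PKo (m + 1) f) (Nat.mul 67108864 (esym cols m)) (mkCC m (List.range' K n)) =
      PKo m (part f R (dec 0 K)) := by
  intro n
  induction n with
  | zero =>
    intro K hK _
    have : dec 0 K = ∅ := by
      ext x; simp only [dec, mem_filter, mem_univ, true_and, notMem_empty, iff_false]; omega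
    rw [this]
    change 67108864 * esym cols m = _
    rw [esym_cols, pk_mul]
    exact pk_congr fun T _ => by simp [part, off]
  | succ n ih =>
    intro K hK hR
    set i : Col := ⟨K, by omega⟩ with hi
    have h1 : i ∉ dec 0 (K + 1) := by simp [dec, hi]
    have h2 : dec 0 K = insert i (dec 0 (K + 1)) := by
      ext x
      simp only [dec, mem_filter, mem_univ, true_and, mem_insert, Fin.ext_iff, hi]
      omega
    have h3 := PKo_part_insert hL R h1
    have h4 := Yv_sub (L1_le_of_mul hL) i
    have h5 : sg R i = 1 := if_neg fun h => by have := hR i h; simp [hi] at this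
    have e : acc0 (PKo (m + 1) f) (Nat.mul 67108864 (esym cols m)) (mkCC m (List.range' K (n + 1))) =
        acc0 (PKo (m + 1) f) (Nat.mul 67108864 (esym cols m)) (mkCC m (List.range' (K + 1) n))
          + Yv m (PKo (m + 1) f) i - Nat.mul 67108864 (esym (cols.erase i) m) := rfl
    rw [e, ih (K + 1) (by omega) (fun i h => by have := hR i h; omega), h2]
    rw [h5] at h3
    omega

theorem mkCL_rest {m : ℕ} {f : Finset Col → ℤ} (hL : ((m : ℤ) + 1) * L1 (m + 1) f ≤ 39916800)
    (u K : ℕ) (hK : K ≤ 11) : ∀ (n j prevY : ℕ), j + n = K →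
    ((mkCL (PKo (m + 1) f) (PKa (m + 1) f) u (mkCC m (List.range' j n)) prevY).rest : ℤ) =
      ∑ i ∈ (dec j K)ᶜ, L1 m (sl f i) := by
  intro n
  induction n with
  | zero =>
    intro j prevY h
    rw [show j = K by omega, dec_self]
    simp only [compl_univ, sum_empty]
    rfl
  | succ n ih =>
    intro j prevY h
    obtain ⟨h1, h2⟩ := dec_succ (j := j) (K := K) (by omega) hK
    set i : Col := ⟨j, by omega⟩ with hi
    have e : (mkCL (PKo (m + 1) f) (PKa (m + 1) f) u (mkCC m (List.range' j (n + 1))) prevY).rest =
        Nat.mod (Nat.land (PKa (m + 1) f)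
          (Nat.mul 134217727 (Nat.shiftLeft (esym (cols.erase i) m) (Nat.mul 27 (ee i))))) 134217727 +
        (mkCL (PKo (m + 1) f) (PKa (m + 1) f) u (mkCC m (List.range' (j + 1) n))
          (Yv m (PKo (m + 1) f) i)).rest := rfl
    rw [e, Nat.cast_add, slice_sum (L1_le_of_mul hL), ih (j + 1) _ (by omega), h2, compl_insert,
      Finset.add_sum_erase _ (fun i => L1 m (sl f i)) (mem_compl.2 h1)]

theorem inrow_cons_spec (ones cm thr : ℕ) (K : ℕ → ℕ → Bool) (flag : Bool) (A rest : ℕ) (tw : Bool)
    (bit : ℕ) (tl : CL) (acc mask : ℕ)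
    (hth : Nat.ble (Nat.sub thr rest)
      (Nat.mod (Nat.xor acc (Nat.add cm (Nat.land (Nat.shiftRight acc 26) ones))) 134217727) = true) :
    ((inrow ones cm thr K (CL.cons flag A rest tw bit tl)).2 acc mask = true →
      (inrow ones cm thr K tl).1 (bif flag then acc + A else acc - A) mask = true ∧
      (inrow ones cm thr K tl).2 (bif flag then acc - A else acc + A) (mask + bit) = true) ∧
    ((inrow ones cm thr K (CL.cons flag A rest tw bit tl)).1 acc mask = true →
      (inrow ones cm thr K tl).1 (bif flag then acc + A else acc - A) mask = true ∧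
      (tw = false →
        (inrow ones cm thr K tl).2 (bif flag then acc - A else acc + A) (mask + bit) = true)) := by
  have key : ∀ a b : Bool, Bool.rec (motive := fun _ => Bool) true
      (Bool.rec (motive := fun _ => Bool) false b a)
      (Nat.ble (Nat.sub thr rest)
        (Nat.mod (Nat.xor acc (Nat.add cm (Nat.land (Nat.shiftRight acc 26) ones))) 134217727)) = true →
      a = true ∧ b = true := by
    intro a b h
    rw [hth] at h
    cases a
    · exact absurd h (by simp)
    · exact ⟨rfl, h⟩
  cases flag <;> cases tw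
  · exact ⟨fun h => key _ _ h, fun h => ⟨(key _ _ h).1, fun _ => (key _ _ h).2⟩⟩
  · exact ⟨fun h => key _ _ h, fun h => ⟨h, fun h' => absurd h' (by simp)⟩⟩
  · exact ⟨fun h => key _ _ h, fun h => ⟨(key _ _ h).1, fun _ => (key _ _ h).2⟩⟩
  · exact ⟨fun h => key _ _ h, fun h => ⟨h, fun h' => absurd h' (by simp)⟩⟩

theorem inrow_sound {m : ℕ} {f : Finset Col → ℤ} (hL : ((m : ℤ) + 1) * L1 (m + 1) f ≤ 39916800)
    (R : Finset Col) (u K thr : ℕ) (hK : K ≤ 11) (hR : ∀ i ∈ R, (i : ℕ) < K)
    (hbig : ∀ s : ℕ, L1 m (part f R univ) ≤ s + (Nat.choose 11 m : ℕ) → thr ≤ s)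
    (htw : ∀ i j : Col, (j : ℕ) = i + 1 → (j : ℕ) ≠ u →
      (∀ T : Finset Col, T.card = m + 1 → f (T.map (Equiv.swap i j).toEmbedding) = f T) →
      j ∈ R → i ∈ R)
    (Kf : ℕ → ℕ → Bool) : ∀ (n j prevY : ℕ), j + n = K →
      (∀ i : Col, (i : ℕ) + 1 = j → prevY = Yv m (PKo (m + 1) f) i) →
      ((inrow (esym cols m) (Nat.mul 67108863 (esym cols m)) thr Kf
        (mkCL (PKo (m + 1) f) (PKa (m + 1) f) u (mkCC m (List.range' j n)) prevY)).2
          (PKo m (part f R (dec j K))) (val (R ∩ seg j)) = true →
        Kf (PKo m (part f R univ)) (val R) = true) ∧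
      ((∀ i : Col, (i : ℕ) + 1 = j → i ∉ R) →
        (inrow (esym cols m) (Nat.mul 67108863 (esym cols m)) thr Kf
        (mkCL (PKo (m + 1) f) (PKa (m + 1) f) u (mkCC m (List.range' j n)) prevY)).1
          (PKo m (part f R (dec j K))) (val (R ∩ seg j)) = true →
        Kf (PKo m (part f R univ)) (val R) = true) := by
  intro n
  induction n with
  | zero =>
    intro j prevY h _
    have hj : j = K := by omega
    subst hj
    have hR' : R ∩ seg j = R := inter_eq_left.2 fun i hi => by simp [seg, hR i hi]
    rw [dec_self, hR']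
    have hth := Nat.ble_eq_true_of_le (hbig _ (sab_bound (L1_part_le hL R univ)))
    have key : Bool.rec (motive := fun _ => Bool) true (Kf (PKo m (part f R univ)) (val R))
        (Nat.ble thr (Nat.mod (Nat.xor (PKo m (part f R univ)) (Nat.add (Nat.mul 67108863 (esym cols m))
          (Nat.land (Nat.shiftRight (PKo m (part f R univ)) 26) (esym cols m)))) 134217727)) = true →
        Kf (PKo m (part f R univ)) (val R) = true := by
      intro h; rw [hth] at h; exact h
    exact ⟨key, fun _ => key⟩
  | succ n ih =>
    intro j prevY h hprev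
    obtain ⟨h1, h2⟩ := dec_succ (j := j) (K := K) (by omega) hK
    have hrest := mkCL_rest hL u K hK (n + 1) j prevY h
    set i : Col := ⟨j, by omega⟩ with hi
    set Y := Yv m (PKo (m + 1) f) i with hY
    set c := Nat.mul 67108864 (esym (cols.erase i) m) with hc
    set tm := Nat.mul 134217727 (esym ((cols.erase i).erase (j - 1)) m) with htm
    set tl := mkCL (PKo (m + 1) f) (PKa (m + 1) f) u (mkCC m (List.range' (j + 1) n)) Y with htl
    set rest := (mkCL (PKo (m + 1) f) (PKa (m + 1) f) u (mkCC m (List.range' j (n + 1))) prevY).rest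
      with hrestdef
    set tw := Bool.rec (motive := fun _ => Bool)
      (Bool.rec (motive := fun _ => Bool) (Nat.beq (Nat.land prevY tm) (Nat.land Y tm)) false (Nat.beq j u))
      false (Nat.beq j 0) with htwdef
    set A := Bool.rec (motive := fun _ => ℕ) (Nat.sub c Y) (Nat.sub Y c) (Nat.ble c Y) with hA
    have e : mkCL (PKo (m + 1) f) (PKa (m + 1) f) u (mkCC m (List.range' j (n + 1))) prevY =
        CL.cons (Nat.ble c Y) A rest tw (2 ^ j) tl := rfl
    rw [e]
    have hsab := sab_bound (L1_part_le hL R (dec j K))
    set acc := PKo m (part f R (dec j K)) with hacc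
    have huniv := L1_part_univ m f R (dec j K)
    have hth : Nat.ble (Nat.sub thr rest) (Nat.mod (Nat.xor acc (Nat.add (Nat.mul 67108863 (esym cols m))
        (Nat.land (Nat.shiftRight acc 26) (esym cols m)))) 134217727) = true := by
      apply Nat.ble_eq_true_of_le
      have := hbig (Nat.mod (Nat.xor acc (Nat.add (Nat.mul 67108863 (esym cols m))
        (Nat.land (Nat.shiftRight acc 26) (esym cols m)))) 134217727 + rest) (by
          rw [← hrest] at huniv
          push_cast at hsab ⊢
          omega)
      exact Nat.sub_le_iff_le_add.2 this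
    obtain ⟨s2, s1⟩ := inrow_cons_spec _ _ thr Kf (Nat.ble c Y) A rest tw (2 ^ j) tl acc
      (val (R ∩ seg j)) hth
    obtain ⟨ih2, ih1⟩ := ih (j + 1) Y (by omega) (fun i' hi' => by
      rw [show i' = i from Fin.ext (by simp only [hi]; omega)])
    have hins := PKo_part_insert hL R h1
    have hsub : (Y : ℤ) - c = PZ m (sl f i) := Yv_sub (L1_le_of_mul hL) i
    rw [← h2, ← hacc, ← hsub] at hins
    have plus : i ∉ R → (inrow (esym cols m) (Nat.mul 67108863 (esym cols m)) thr Kf tl).1
        (bif Nat.ble c Y then acc + A else acc - A) (val (R ∩ seg j)) = true →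
        Kf (PKo m (part f R univ)) (val R) = true := by
      intro hiR hh
      apply ih1 (fun i' hi' => by rw [show i' = i from Fin.ext (by simp only [hi]; omega)]; exact hiR)
      have e1 : R ∩ seg (j + 1) = R ∩ seg j := by
        ext x
        simp only [mem_inter, seg, mem_filter, mem_univ, true_and, and_congr_right_iff]
        intro hx
        have : (x : ℕ) ≠ j := fun e => hiR (by rw [show i = x from Fin.ext (by simp only [hi]; omega)]; exact hx)
        omega
      have e2 : (bif Nat.ble c Y then acc + A else acc - A) = PKo m (part f R (dec (j + 1) K)) := by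
        rw [show sg R i = 1 from if_neg hiR] at hins
        rw [hA]
        cases hb : Nat.ble c Y
        · have := Nat.not_le_of_not_ble_eq_true (n := c) (m := Y) (by simp [hb])
          change acc - (c - Y) = _
          omega
        · have := Nat.le_of_ble_eq_true hb
          change acc + (Y - c) = _
          omega
      rw [e1, ← e2]; exact hh
    have minus : i ∈ R → (inrow (esym cols m) (Nat.mul 67108863 (esym cols m)) thr Kf tl).2
        (bif Nat.ble c Y then acc - A else acc + A) (val (R ∩ seg j) + 2 ^ j) = true →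
        Kf (PKo m (part f R univ)) (val R) = true := by
      intro hiR hh
      apply ih2
      have e1 : val (R ∩ seg (j + 1)) = val (R ∩ seg j) + 2 ^ j := by
        have : R ∩ seg (j + 1) = insert i (R ∩ seg j) := by
          ext x
          simp only [mem_inter, seg, mem_filter, mem_univ, true_and, mem_insert]
          constructor
          · rintro ⟨hx, hx'⟩
            by_cases e : (x : ℕ) = j
            · exact Or.inl (Fin.ext e)
            · exact Or.inr ⟨hx, by omega⟩
          · rintro (rfl | ⟨hx, hx'⟩)
            · exact ⟨hiR, by simp [hi]⟩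
            · exact ⟨hx, by omega⟩
        rw [this, val, Finset.sum_insert (by simp [seg, hi]), add_comm]
        rfl
      have e2 : (bif Nat.ble c Y then acc - A else acc + A) = PKo m (part f R (dec (j + 1) K)) := by
        rw [show sg R i = -1 from if_pos hiR] at hins
        rw [hA]
        cases hb : Nat.ble c Y
        · have := Nat.not_le_of_not_ble_eq_true (n := c) (m := Y) (by simp [hb])
          change acc + (c - Y) = _
          omega
        · have := Nat.le_of_ble_eq_true hb
          change acc - (Y - c) = _
          omega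
      rw [e1, ← e2]; exact hh
    constructor
    · intro hh
      by_cases hiR : i ∈ R
      · exact minus hiR (s2 hh).2
      · exact plus hiR (s2 hh).1
    · intro hprevR hh
      by_cases hiR : i ∈ R
      · refine minus hiR ((s1 hh).2 ?_)
        by_contra hne
        have htrue : tw = true := by simpa using hne
        rw [htwdef] at htrue
        cases h0 : Nat.beq j 0
        · rw [h0] at htrue
          cases hu : Nat.beq j u
          · rw [hu] at htrue
            have hj0 : j ≠ 0 := Nat.ne_of_beq_eq_false h0
            set i' : Col := ⟨j - 1, by omega⟩ with hi'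
            have hp := hprev i' (by simp only [hi']; omega)
            have ht := twin_test (L1_le_of_mul hL) (i := i') (j := i) (by
              rw [← hp]; exact Nat.eq_of_beq_eq_true htrue)
            exact hprevR i' (by simp only [hi']; omega)
              (htw i' i (by simp only [hi, hi']; omega) (Nat.ne_of_beq_eq_false hu) ht hiR)
          · rw [hu] at htrue; exact absurd htrue (by simp)
        · rw [h0] at htrue; exact absurd htrue (by simp)
      · exact plus hiR (s1 hh).1

theorem nosub_sound : ∀ (L : List ℕ) (D : ℕ), nosub L D = true →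
    ∀ l : List ℕ, l.Sublist L → l.sum ≠ D := by
  intro L
  induction L with
  | nil =>
    intro D h l hl
    have : l = [] := List.sublist_nil.1 hl
    subst this
    have := Nat.le_of_ble_eq_true (n := 1) (m := D) h
    simp; omega
  | cons a L ih =>
    intro D h l hl
    have e : nosub (a :: L) D = Bool.rec (motive := fun _ => Bool) false
      (Bool.rec (motive := fun _ => Bool) true (nosub L (D - a)) (Nat.ble a D)) (nosub L D) := rfl
    rw [e] at h
    cases h1 : nosub L D
    · rw [h1] at h; exact absurd h (by simp)
    rw [h1] at h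
    rcases List.sublist_cons_iff.1 hl with hl | ⟨r, rfl, hr⟩
    · exact ih D h1 l hl
    · rw [List.sum_cons]
      cases h2 : Nat.ble a D
      · have := Nat.not_le_of_not_ble_eq_true (n := a) (m := D) (by simp [h2])
        omega
      · rw [h2] at h
        have := ih _ h r hr
        have := Nat.le_of_ble_eq_true h2
        omega

theorem lev_one_sum (F : Finset Col → ℤ) : ∑ T ∈ lev 1, F T = ∑ i : Col, F {i} := by
  rw [lev, Finset.powersetCard_one, Finset.sum_map]; rfl

theorem dbl_map (A : ℕ) : ∀ L : List Col, dbl A (L.map Fin.val) =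
    L.map fun i : Col => 2 * ((A >>> (27 * ee i)) % 134217728) := by
  intro L
  induction L with
  | nil => rfl
  | cons i L ih => rw [List.map_cons, List.map_cons, ← ih]; rfl

theorem final_spec (A : ℕ) (h : final A = true) (h2 : 2029568 ≤ A % 134217727) :
    nosub (dbl A cols) (A % 134217727 - 2029568) = true := by
  have e : final A = Bool.rec (motive := fun _ => Bool) true
    (nosub (dbl A cols) (A % 134217727 - 2029568)) (Nat.ble 2029568 (A % 134217727)) := rfl
  rw [e, Nat.ble_eq_true_of_le h2] at h
  exact h

theorem final_sound {f : Finset Col → ℤ} (hL : L1 1 f ≤ 39916800) (h : final (PKa 1 f) = true)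
    (R : Finset Col) : |∑ i, sg R i * f {i}| ≠ 2029568 := by
  intro hv
  have hb : ∀ T ∈ lev 1, (f T).natAbs < 2 ^ 27 := fun T hT => by
    have := abs_lt_of_L1 hL hT
    rw [abs_lt] at this; omega
  have hN := L1_natAbs 1 f
  have hmod : PKa 1 f % 134217727 = ∑ T ∈ lev 1, (f T).natAbs :=
    pk_mod _ _ _ (by omega)
  have hdbl : dbl (PKa 1 f) cols = (List.finRange 11).map fun i : Col => 2 * (f {i}).natAbs := by
    rw [show cols = (List.finRange 11).map Fin.val by decide, dbl_map]
    refine List.map_congr_left fun i _ => ?_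
    have := pk_digit (pos_inj 1) hb (T := {i}) (by simp)
    rw [show pos {i} = ee i by simp [pos], show (2 : ℕ) ^ 27 = 134217728 by norm_num] at this
    rw [PKa, this]
  -- the terms and their signs
  have hL1 : L1 1 f = ∑ i : Col, |f {i}| := lev_one_sum _
  have main : ∀ ε : ℤ, (ε = 1 ∨ ε = -1) → ε * ∑ i, sg R i * f {i} = 2029568 → False := by
    intro ε hε hs
    set J : Finset Col := univ.filter fun i => ε * (sg R i * f {i}) < 0 with hJ
    have h1 : ∑ i : Col, |f {i}| = 2029568 + ∑ i ∈ J, 2 * |f {i}| := by
      rw [← hs, Finset.mul_sum, hJ, Finset.sum_filter, ← Finset.sum_add_distrib]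
      refine Finset.sum_congr rfl fun i _ => ?_
      have ha : |ε * (sg R i * f {i})| = |f {i}| := by
        rw [abs_mul, abs_mul, abs_sg]
        rcases hε with rfl | rfl <;> simp
      split_ifs with hneg
      · rw [abs_of_neg hneg] at ha; omega
      · rw [abs_of_nonneg (not_lt.1 hneg)] at ha; omega
    have h2 : (0 : ℤ) ≤ ∑ i ∈ J, 2 * |f {i}| := Finset.sum_nonneg fun i _ => by positivity
    replace h := final_spec _ h (by omega)
    rw [hmod, hdbl] at h
    refine nosub_sound _ _ h (((List.finRange 11).filter fun i => decide (i ∈ J)).map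
      fun i : Col => 2 * (f {i}).natAbs) (List.filter_sublist.map _) ?_
    have h3 : ((((List.finRange 11).filter fun i => decide (i ∈ J)).map
        fun i : Col => 2 * (f {i}).natAbs).sum : ℕ) = ∑ i ∈ J, 2 * (f {i}).natAbs := by
      rw [← List.sum_toFinset _ ((List.nodup_finRange 11).filter _)]
      apply Finset.sum_congr _ (fun _ _ => rfl)
      ext i; simp
    have h4 : ((∑ i ∈ J, 2 * (f {i}).natAbs : ℕ) : ℤ) = ∑ i ∈ J, 2 * |f {i}| := by push_cast; rfl
    rw [h3]
    omega
  rcases abs_eq (by norm_num : (0 : ℤ) ≤ 2029568) |>.1 hv with h' | h'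
  · exact main 1 (Or.inl rfl) (by rw [h']; norm_num)
  · exact main (-1) (Or.inr rfl) (by rw [h']; norm_num)

theorem card_union_seg {u : ℕ} (hu : u ≤ 11) (R : Finset Col) :
    (seg u ∪ R).card = u + pc (val R >>> u) := by
  rw [pc_shift, ← union_sdiff_self_eq_union, card_union_of_disjoint disjoint_sdiff, card_seg hu]

/-- the insertion data belong to the rows `P1` -/
def ILok (P1 : List (Finset Col)) (il : IL) : Prop :=
  ∀ (P2 : List (Finset Col)) (R : Finset Col) (Q : List (Finset Col)), Mini (P1 ++ (P2 ++ R :: Q)) →
    (∀ s ≤ P2.length, (U (P1 ++ P2.take s) ∪ R).card ≤ P1.length + s + 1) →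
    ins (val R) (R.card * 2048) il = false

theorem insG_cons_false (p : ℕ → ℕ) (mask szk u pw lim ky : ℕ) (il : IL)
    (h : u + p (mask >>> u) ≤ lim →
      ky ≤ szk + (mask % pw + (2 ^ p (mask >>> u) - 1) * pw) ∧ insG p mask szk il = false) :
    insG p mask szk (IL.cons u pw lim ky il) = false := by
  have e : insG p mask szk (IL.cons u pw lim ky il) =
        Bool.rec (motive := fun _ => Bool) false
          (Bool.rec (motive := fun _ => Bool) true (insG p mask szk il)
            (Nat.ble ky (szk + (mask % pw + (2 ^ p (mask >>> u) - 1) * pw))))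
          (Nat.ble (u + p (mask >>> u)) lim) := rfl
  rw [e]
  cases hb : Nat.ble (u + p (mask >>> u)) lim
  · rfl
  · obtain ⟨h1, h2⟩ := h (Nat.le_of_ble_eq_true hb)
    rw [Nat.ble_eq_true_of_le h1]
    exact h2

theorem ILok_nil (P1 : List (Finset Col)) : ILok P1 IL.nil := fun _ _ _ _ _ => rfl

theorem ILok_cons {P1 : List (Finset Col)} {il : IL} (h : ILok P1 il) (hP : P1 ≠ [])
    (R0 : Finset Col) :
    ILok (P1 ++ [R0]) (IL.cons (U P1).card (2 ^ (U P1).card) (P1.length + 1) (key R0) il) := by
  intro P2 R Q hm hc
  set u := (U P1).card with hu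
  have hu11 : u ≤ 11 := by simpa using card_le_univ (U P1)
  rw [List.append_assoc, List.singleton_append] at hm
  have hseg : U P1 = seg u := U_eq_seg hm
  apply insG_cons_false pc
  intro hb
  have hc' : ∀ s ≤ P2.length + 1, (U (P1 ++ (R0 :: P2).take s) ∪ R).card ≤ P1.length + s + 1 := by
    intro s hs
    cases s with
    | zero =>
      simp only [List.take_zero, List.append_nil, add_zero]
      rw [hseg, card_union_seg hu11]
      exact hb
    | succ s =>
      have := hc s (by omega)
      rw [List.append_assoc, List.singleton_append, List.length_append] at this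
      rw [List.take_succ_cons]
      simp only [List.length_singleton] at this
      omega
  obtain ⟨π, hfix, hval⟩ := exists_relabel R hu11
  have hk := insert_rule hm hP hc' π (by rw [hseg]; exact hfix)
  rw [show key (R.map π.toEmbedding) = (R.map π.toEmbedding).card * 2048 + val (R.map π.toEmbedding)
    from rfl, card_map, hval, ← pc_shift] at hk
  exact ⟨hk, h (R0 :: P2) R Q hm hc'⟩

/-- the code of a list of rows -/
def codeOf (P : List (Finset Col)) : ℕ := P.foldl (fun a R => a * 2048 + val R) 0

theorem thr_ok : ∀ k : Fin 10, thrOf k = 0 ∨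
    (thrOf k - 1 + Nat.choose 11 (10 - k)) * (10 - k.1).factorial < 2029568 := by
  decide +kernel

theorem cols_take_drop : ∀ k : Fin 10, cols.take (k + 1) = List.range' 0 (k + 1) ∧
    cols.drop (k + 1) = List.range' (k + 1) (10 - k) := by
  decide

theorem search_sound (sel : ℕ → ℕ → Bool) (C : List (Finset Col)) (hC : Mini C)
    (hsel : ∀ P R Q, C = P ++ R :: Q → sel P.length (codeOf (P ++ [R])) = true) :
    ∀ (n : ℕ) (P Q : List (Finset Col)) (il : IL), C = P ++ Q → P ≠ [] → P.length + n = 10 →
      ILok P il →
      search sel (esym cols 1) (Nat.mul 67108863 (esym cols 1)) (mkLD (List.range' P.length n))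
        (PKo (11 - P.length) (G P)) il (U P).card (codeOf P) ≠ true := by
  intro n
  induction n with
  | zero =>
    intro P Q il hPQ hP hn _ hs
    have hlen := hC.1.len
    rw [hPQ, List.length_append] at hlen
    obtain ⟨R, rfl⟩ : ∃ R, Q = [R] := List.length_eq_one_iff.1 (by omega)
    have hL : L1 1 (G P) ≤ 39916800 := by simpa using L1_apriori P 1 (by omega)
    rw [show 11 - P.length = 1 by omega] at hs
    change final (absv (PKo 1 (G P)) (esym cols 1) (Nat.mul 67108863 (esym cols 1))) = true at hs
    rw [absv_eq hL] at hs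
    apply final_sound hL hs R
    have := hC.1.per
    rw [hPQ, G_perm List.perm_append_comm] at this
    simpa [G] using this
  | succ n ih =>
    intro P Q il hPQ hP hn hil hs
    have hlen := hC.1.len
    rw [hPQ, List.length_append] at hlen
    obtain ⟨R, Q, rfl⟩ : ∃ R Q', Q = R :: Q' := by
      cases Q with
      | nil => simp at hlen; omega
      | cons R Q => exact ⟨R, Q, rfl⟩
    rw [List.length_cons] at hlen
    set k := P.length with hk
    obtain ⟨m, hm⟩ : ∃ m, m + k = 10 := ⟨10 - k, by omega⟩
    have hQ : Q.length = m := by omega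
    have hmini : Mini (P ++ R :: Q) := hPQ ▸ hC
    have hL : ((m : ℤ) + 1) * L1 (m + 1) (G P) ≤ 39916800 := by
      have h1 := L1_apriori P (m + 1) (by omega)
      have h2 := L1_nonneg (m + 1) (G P)
      have h3 : ((m : ℤ) + 1) ≤ ((m + 1).factorial : ℕ) := by exact_mod_cast Nat.self_le_factorial (m + 1)
      nlinarith
    have hL' := L1_le_of_mul hL
    set u := (U P).card with hu
    have hu11 : u ≤ 11 := by simpa using card_le_univ (U P)
    have hseg : U P = seg u := U_eq_seg hmini
    have hmini' : Mini ((P ++ [R]) ++ Q) := by simpa using hmini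
    have hch : (U (P ++ [R])).card ≤ k + 1 := by simpa using hmini'.1.chain'
    have hUR : U (P ++ [R]) = seg u ∪ R := by rw [U_append, hseg]; simp [U]
    have hR : ∀ i ∈ R, (i : ℕ) < k + 1 := by
      intro i hi
      have : i ∈ U (P ++ [R]) := by rw [hUR]; exact mem_union_right _ hi
      rw [U_eq_seg hmini'] at this
      simp only [seg, mem_filter, mem_univ, true_and] at this
      omega
    have hpart : part (G P) R univ = G (P ++ [R]) := by
      rw [G_perm List.perm_append_comm]
      exact (funext (G_cons_eq R P)).symm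
    have hper : |G (Q ++ (P ++ [R])) ∅| = 2029568 := by
      rw [G_perm List.perm_append_comm]; exact hmini'.1.per
    obtain ⟨htake, hdrop⟩ := cols_take_drop ⟨k, by omega⟩
    simp only at htake hdrop
    set Kf : ℕ → ℕ → Bool := fun acc mask =>
      Bool.rec (motive := fun _ => Bool)
        (Bool.rec (motive := fun _ => Bool) true
          (search sel (esym cols 1) (Nat.mul 67108863 (esym cols 1)) (mkLD (List.range' (k + 1) n))
            acc (IL.cons u (2 ^ u) (k + 1) (pc mask * 2048 + mask) il)
            (u + pc (mask >>> u)) (codeOf P * 2048 + mask))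
          (sel k (codeOf P * 2048 + mask)))
        true (ins mask (pc mask * 2048) il) with hKf
    have e : search sel (esym cols 1) (Nat.mul 67108863 (esym cols 1)) (mkLD (List.range' k (n + 1)))
        (PKo (11 - k) (G P)) il u (codeOf P) =
        Bool.rec (motive := fun _ => Bool)
          ((inrow (esym cols (10 - k)) (Nat.mul 67108863 (esym cols (10 - k))) (thrOf k) Kf
            (mkCL (PKo (11 - k) (G P))
              (absv (PKo (11 - k) (G P)) (esym cols (11 - k)) (Nat.mul 67108863 (esym cols (11 - k))))
              u (mkCC (10 - k) (cols.take (k + 1))) 0)).1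
            (acc0 (PKo (11 - k) (G P)) (Nat.mul 67108864 (esym cols (10 - k)))
              (mkCC (10 - k) (cols.drop (k + 1)))) 0)
          true (div3 (absv (PKo (11 - k) (G P)) (esym cols (11 - k))
            (Nat.mul 67108863 (esym cols (11 - k)))) hmask) := rfl
    rw [e, htake, hdrop, show 11 - k = m + 1 by omega, show 10 - k = m by omega, absv_eq hL',
      acc0_eq hL R m (k + 1) (by omega) hR] at hs
    cases hd : div3 (PKa (m + 1) (G P)) hmask
    swap
    · have h3 := three_dvd_append P (m + 1) (div3_sound hL' hd) (R :: Q) ∅ (by simp [hQ])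
      have h4 := hmini.1.per
      rw [G_perm List.perm_append_comm] at h4
      have := (dvd_abs _ _).2 h3
      rw [h4] at this
      norm_num at this
    rw [hd] at hs
    have hbig : ∀ s : ℕ, L1 m (part (G P) R univ) ≤ s + (Nat.choose 11 m : ℕ) → thrOf k ≤ s := by
      intro s hs'
      rcases thr_ok ⟨k, by omega⟩ with h0 | h0
      · simp only at h0; omega
      · simp only [show 10 - k = m by omega] at h0
        by_contra hc
        have h1 := abs_G_le (P ++ [R]) Q
        rw [hper, hQ, ← hpart] at h1
        have h2 : (s + Nat.choose 11 m) * m.factorial ≤ (thrOf k - 1 + Nat.choose 11 m) * m.factorial :=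
          Nat.mul_le_mul_right _ (by omega)
        have h3 : ((s + Nat.choose 11 m) * m.factorial : ℕ) < 2029568 := lt_of_le_of_lt h2 h0
        have h4 : (((s + Nat.choose 11 m) * m.factorial : ℕ) : ℤ) < 2029568 := by exact_mod_cast h3
        push_cast at h4
        have h5 : (0 : ℤ) ≤ m.factorial := by positivity
        nlinarith
    have htw : ∀ i j : Col, (j : ℕ) = i + 1 → (j : ℕ) ≠ u →
        (∀ T : Finset Col, T.card = m + 1 → G P (T.map (Equiv.swap i j).toEmbedding) = G P T) →
        j ∈ R → i ∈ R := by
      intro i j hij hju hG hj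
      refine twin_rule hmini hP hij ?_ (by rw [hQ]; exact hG) hj
      rw [hseg]
      simp only [seg, mem_filter, mem_univ, true_and]
      omega
    have hK := (inrow_sound hL R u (k + 1) (thrOf k) (by omega) hR hbig htw Kf (k + 1) 0 0 (by omega)
      (fun i hi => by omega)).2 (fun i hi => by omega) (by
        rw [show val (R ∩ seg 0) = 0 by simp [seg, val]]; exact hs)
    have hins : ins (val R) (R.card * 2048) il = false := hil [] R Q hmini (by
      intro s hs
      have : s = 0 := by simpa using hs
      subst this
      simp only [List.take_nil, List.append_nil, add_zero]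
      rw [hseg, ← hUR]; exact hch)
    have hcode : codeOf (P ++ [R]) = codeOf P * 2048 + val R := by simp [codeOf]
    have hs2 := hsel P R Q hPQ
    rw [hcode] at hs2
    simp only [hKf, pc_val] at hK
    rw [hins, hs2] at hK
    have := ih (P ++ [R]) Q _ (by simpa using hPQ) (by simp) (by simp; omega) (ILok_cons hil hP R)
    apply this
    rw [List.length_append, List.length_singleton, show 11 - (k + 1) = m by omega, ← hpart, hUR,
      card_union_seg hu11, hcode]
    exact hK

theorem keyN_val (R : Finset Col) : keyN (val R) = key R := by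
  unfold keyN key; rw [pc_val]; rfl

theorem codeOf_div (P : List (Finset Col)) : ∀ Q : List (Finset Col),
    codeOf (P ++ Q) / 2048 ^ Q.length = codeOf P := by
  intro Q
  induction Q using List.reverseRecOn with
  | nil => simp
  | append_singleton Q R ih =>
    have hc : codeOf (P ++ (Q ++ [R])) = codeOf (P ++ Q) * 2048 + val R := by simp [codeOf]
    have h3 := val_lt R
    rw [hc, List.length_append, List.length_singleton, pow_succ', ← Nat.div_div_eq_div_mul,
      show (codeOf (P ++ Q) * 2048 + val R) / 2048 = codeOf (P ++ Q) by omega, ih]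

theorem not_in_range {lo hi : ℕ} (hr : run lo hi = true) {C : List (Finset Col)} (hC : Mini C)
    (h1 : lo ≤ codeOf (C.take 7)) : hi < codeOf (C.take 7) := by
  by_contra h2
  have h2 : codeOf (C.take 7) ≤ hi := by omega
  obtain ⟨Q, hQ⟩ : ∃ Q, C = [∅] ++ Q := by
    have := hC.1.head
    cases C with
    | nil => simp at this
    | cons a Q => exact ⟨Q, by simpa using this⟩
  refine search_sound (selc lo hi) C hC ?_ 9 [∅] Q IL.nil hQ (by simp) (by simp)
    (ILok_nil _) ?_
  · intro P R Q' hP
    unfold selc
    cases e7 : Nat.ble 7 P.length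
    swap
    · rfl
    have h7 : P.length < 7 := by
      have := Nat.not_le_of_not_ble_eq_true (n := 7) (m := P.length) (by simp [e7])
      omega
    have hlen := hC.1.len
    rw [hP, List.length_append, List.length_cons] at hlen
    have htake : C.take 7 = (P ++ [R]) ++ Q'.take (6 - P.length) := by
      rw [hP, show P ++ R :: Q' = (P ++ [R]) ++ Q' by simp,
        show 7 = (P ++ [R]).length + (6 - P.length) by simp; omega, List.take_length_add_append]
    have hdiv := codeOf_div (P ++ [R]) (Q'.take (6 - P.length))
    rw [← htake, List.length_take, min_eq_left (by omega)] at hdiv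
    have g1 : Nat.ble (Nat.div lo (Nat.pow 2048 (Nat.sub 6 P.length))) (codeOf (P ++ [R])) = true := by
      rw [← hdiv]; exact Nat.ble_eq_true_of_le (Nat.div_le_div_right h1)
    have g2 : Nat.ble (codeOf (P ++ [R])) (Nat.div hi (Nat.pow 2048 (Nat.sub 6 P.length))) = true := by
      rw [← hdiv]; exact Nat.ble_eq_true_of_le (Nat.div_le_div_right h2)
    rw [g1, g2]
    cases e2 : Nat.beq P.length 2
    · rfl
    · obtain ⟨R1, R2, rfl⟩ := List.length_eq_two.1 (Nat.eq_of_beq_eq_true e2)
      have h0 : R1 = ∅ := by
        have := hP.symm.trans hQ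
        simp only [List.cons_append, List.nil_append, List.cons.injEq] at this
        exact this.1
      have hk := rebase_rule (hP ▸ hC)
      have hc : codeOf ([R1, R2] ++ [R]) = val R2 * 2048 + val R := by simp [codeOf, h0, val]
      have h3 := val_lt R
      change Nat.ble (keyN (codeOf ([R1, R2] ++ [R]) % 2048))
        (keyN (codeOf ([R1, R2] ++ [R]) % 2048 ^^^ codeOf ([R1, R2] ++ [R]) / 2048)) = true
      rw [hc, show (val R2 * 2048 + val R) % 2048 = val R by omega,
        show (val R2 * 2048 + val R) / 2048 = val R2 by omega, ← val_symmDiff, keyN_val, keyN_val]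
      exact Nat.ble_eq_true_of_le hk
  · have e1 : PKo (11 - [(∅ : Finset Col)].length) (G [∅]) = Nat.mul 67108865 (esym cols 10) := by
      change PKo 10 (G [∅]) = 67108865 * esym cols 10
      rw [esym_cols, pk_mul]
      refine pk_congr fun T hT => ?_
      have hc : Tᶜ.card = 1 := by rw [card_compl, mem_lev.1 hT]; rfl
      obtain ⟨i, hi⟩ := card_eq_one.1 hc
      have : insert i T = univ := by
        rw [← compl_eq_empty_iff, compl_insert, hi]; simp
      simp only [G, hi, sum_singleton, this]
      simp [sg, off]
    rw [e1]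
    exact hr

end Pool.Agent.Lib.MP_c96c3a_co
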