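import Mathlib
import Pool.Agent.Lib.MP_c96c3a_co.Link

/-! A sign matrix of order 11 with permanent `2029568`. -/

namespace Pool.Agent.Lib.MP_c96c3a_co

open Finset

/-- packed evaluation of all subpermanents of a list of rows -/
noncomputable def evalZ (L : List (Finset Col)) : ℤ :=
  List.rec (motive := fun _ => ℤ) (2 ^ (27 * 649))
    (fun R L ih => ∑ i : Col, sg R i *
      ((Yv (10 - L.length) (ih + (67108864 * esym cols (11 - L.length) : ℕ)).toNat i : ℤ) -
        (Nat.mul 67108864 (esym (cols.erase i) (10 - L.length)) : ℕ))) L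

theorem evalZ_eq : ∀ L : List (Finset Col), L.length ≤ 11 → evalZ L = PZ (11 - L.length) (G L) := by
  intro L
  induction L with
  | nil =>
    intro _
    have e : lev 11 = {univ} := by
      have := Finset.powersetCard_self (univ : Finset Col)
      simpa using this
    have h2 : pos univ = 649 := by decide +kernel
    change (2 : ℤ) ^ (27 * 649) = PZ 11 (G [])
    rw [PZ, e, sum_singleton, h2, show G [] univ = 1 by simp [G], one_mul]
  | cons R L ih =>
    intro h
    rw [List.length_cons] at h
    obtain ⟨m, hm⟩ : ∃ m, m + L.length = 10 := ⟨10 - L.length, by omega⟩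
    have e : evalZ (R :: L) = ∑ i : Col, sg R i *
      ((Yv (10 - L.length) (evalZ L + (67108864 * esym cols (11 - L.length) : ℕ)).toNat i : ℤ) -
        (Nat.mul 67108864 (esym (cols.erase i) (10 - L.length)) : ℕ)) := rfl
    have hL : L1 (m + 1) (G L) ≤ 39916800 := by
      have h1 := L1_apriori L (m + 1) (by omega)
      have h2 := L1_nonneg (m + 1) (G L)
      have h3 : (1 : ℤ) ≤ ((m + 1).factorial : ℕ) := by exact_mod_cast Nat.factorial_pos (m + 1)
      nlinarith
    have e2 : ((67108864 * esym cols (m + 1) : ℕ) : ℤ) = PZ (m + 1) (fun _ => 67108864) := by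
      rw [esym_cols, pk_mul, pk_cast, PZ]
      exact Finset.sum_congr rfl fun T _ => by simp
    rw [e, ih (by omega), List.length_cons, show 11 - L.length = m + 1 by omega,
      show 10 - L.length = m by omega, show 11 - (L.length + 1) = m by omega, e2, ← PKo_cast hL,
      Int.toNat_natCast]
    simp only [Yv_sub hL]
    unfold PZ
    simp only [Finset.mul_sum, G_cons_eq, Finset.sum_mul]
    rw [Finset.sum_comm]
    exact Finset.sum_congr rfl fun T _ => Finset.sum_congr rfl fun i _ => by ring

/-- the positions of the entries `-1` -/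
def wit : Col → Finset Col := ![{0}, {1}, {2}, {3}, {4}, {5}, {6}, {7, 8}, {8, 9}, {9, 10}, {10, 7}]

theorem evalZ_wit : evalZ (List.ofFn wit) = 2029568 := by decide +kernel

theorem permanent_wit : (Matrix.of fun i j => sg (wit i) j).permanent = 2029568 := by
  rw [permanent_eq_G, ← evalZ_wit, evalZ_eq _ (by simp), List.length_ofFn]
  simp [PZ, pos]

end Pool.Agent.Lib.MP_c96c3a_co
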